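import Mathlib

/-!
# Tuning the rotation number on circles whose length tends to infinity
-/

set_option autoImplicit false

open Set Filter Topology

namespace Pool.Agent.KS6_36.LH

/-- the lift, normalized to a circle of length one -/
noncomputable def nrml (T : ℝ) (hT : 0 < T) (g : ℝ → ℝ) (hg : Monotone g)
    (hgT : ∀ t, g (t + T) = g t + T) : CircleDeg1Lift :=
  ⟨⟨fun u => g (u * T) / T, fun u v huv => by
    have h1 : g (u * T) ≤ g (v * T) := hg (mul_le_mul_of_nonneg_right huv hT.le)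
    exact div_le_div_of_nonneg_right h1 hT.le⟩, fun u => by
    show g ((u + 1) * T) / T = g (u * T) / T + 1
    rw [add_mul, one_mul, hgT, add_div, div_self hT.ne']⟩

theorem nrml_apply {T : ℝ} (hT : 0 < T) {g : ℝ → ℝ} (hg : Monotone g)
    (hgT : ∀ t, g (t + T) = g t + T) (u : ℝ) : nrml T hT g hg hgT u = g (u * T) / T := rfl

theorem nrml_iter {T : ℝ} (hT : 0 < T) {g : ℝ → ℝ} (hg : Monotone g)
    (hgT : ∀ t, g (t + T) = g t + T) (k : ℕ) (u : ℝ) :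
    (nrml T hT g hg hgT ^ k : CircleDeg1Lift) u = g^[k] (u * T) / T := by
  rw [CircleDeg1Lift.coe_pow]
  induction k with
  | zero => simp [hT.ne']
  | succ k ih =>
    rw [Function.iterate_succ_apply', ih, nrml_apply, Function.iterate_succ_apply',
      div_mul_cancel₀ _ hT.ne']

/-- different rotation numbers: every point is periodic for some parameter -/
theorem per_of_lt {T : ℝ} (hT : 0 < T) {s₁ s₂ : ℝ} (hs : s₁ ≤ s₂) (G : ℝ → ℝ → ℝ)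
    (hm : ∀ s ∈ Icc s₁ s₂, Monotone (G s)) (hGT : ∀ s ∈ Icc s₁ s₂, ∀ t, G s (t + T) = G s t + T)
    (hc : ContinuousOn (fun p : ℝ × ℝ => G p.1 p.2) (Icc s₁ s₂ ×ˢ univ))
    (hlt : CircleDeg1Lift.translationNumber
        (nrml T hT (G s₁) (hm s₁ (left_mem_Icc.2 hs)) (hGT s₁ (left_mem_Icc.2 hs))) <
      CircleDeg1Lift.translationNumber
        (nrml T hT (G s₂) (hm s₂ (right_mem_Icc.2 hs)) (hGT s₂ (right_mem_Icc.2 hs)))) (t₀ : ℝ) :
    ∃ s ∈ Icc s₁ s₂, ∃ k : ℕ, 1 ≤ k ∧ ∃ p : ℤ, (G s)^[k] t₀ = t₀ + p * T := by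
  obtain ⟨f₁, hf₁⟩ : ∃ f, f = nrml T hT (G s₁) (hm s₁ (left_mem_Icc.2 hs))
    (hGT s₁ (left_mem_Icc.2 hs)) := ⟨_, rfl⟩
  obtain ⟨f₂, hf₂⟩ : ∃ f, f = nrml T hT (G s₂) (hm s₂ (right_mem_Icc.2 hs))
    (hGT s₂ (right_mem_Icc.2 hs)) := ⟨_, rfl⟩
  rw [← hf₁, ← hf₂] at hlt
  obtain ⟨k, hk⟩ := exists_nat_gt (2 / (f₂.translationNumber - f₁.translationNumber))
  have hpos : 0 < f₂.translationNumber - f₁.translationNumber := sub_pos.2 hlt
  have hk0 : (0 : ℝ) < k := (div_pos two_pos hpos).trans hk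
  have hk1 : 1 ≤ k := by
    have : 0 < k := by exact_mod_cast hk0
    exact this
  have hk2 : 2 < k * (f₂.translationNumber - f₁.translationNumber) := by
    rwa [div_lt_iff₀ hpos] at hk
  obtain ⟨p, hp⟩ : ∃ p : ℤ, p = ⌊k * f₁.translationNumber⌋ + 1 := ⟨_, rfl⟩
  have hp1 : k * f₁.translationNumber < p := by
    rw [hp]
    push_cast
    exact Int.lt_floor_add_one _
  have hp2 : (p : ℝ) < k * f₂.translationNumber := by
    rw [hp]
    push_cast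
    have := Int.floor_le (k * f₁.translationNumber)
    linarith
  have h1 : (G s₁)^[k] t₀ ≤ t₀ + p * T := by
    have h2 : (f₁ ^ k).translationNumber < p := by
      rw [CircleDeg1Lift.translationNumber_pow]
      exact hp1
    have h3 := CircleDeg1Lift.map_lt_of_translationNumber_lt_int _ h2 (t₀ / T)
    rw [hf₁, nrml_iter, div_mul_cancel₀ _ hT.ne', div_lt_iff₀ hT, add_mul,
      div_mul_cancel₀ _ hT.ne'] at h3
    exact h3.le
  have h1' : t₀ + p * T ≤ (G s₂)^[k] t₀ := by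
    have h2 : (p : ℝ) < (f₂ ^ k).translationNumber := by
      rw [CircleDeg1Lift.translationNumber_pow]
      exact hp2
    have h3 := CircleDeg1Lift.lt_map_of_int_lt_translationNumber _ h2 (t₀ / T)
    rw [hf₂, nrml_iter, div_mul_cancel₀ _ hT.ne', lt_div_iff₀ hT, add_mul,
      div_mul_cancel₀ _ hT.ne'] at h3
    exact h3.le
  have hcont : ∀ j : ℕ, ContinuousOn (fun s => (G s)^[j] t₀) (Icc s₁ s₂) := by
    intro j
    induction j with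
    | zero => exact continuousOn_const
    | succ j ih =>
      have e : (fun s => (G s)^[j + 1] t₀) =
          (fun p : ℝ × ℝ => G p.1 p.2) ∘ fun s => (s, (G s)^[j] t₀) := by
        funext s
        exact Function.iterate_succ_apply' _ _ _
      rw [e]
      exact hc.comp (continuousOn_id.prodMk ih) (fun s hs => mk_mem_prod hs (mem_univ _))
  obtain ⟨s, hs', hse⟩ := intermediate_value_Icc hs (hcont k) ⟨h1, h1'⟩
  exact ⟨s, hs', k, hk1, p, hse⟩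

/-- The main lemma on circles. -/
theorem tune {ε₀ s₁ s₂ : ℝ} (hε₀ : 0 < ε₀) (hs : s₁ < s₂) (T : ℝ → ℝ)
    (hTc : ContinuousOn T (Ioo 0 ε₀)) (hT0 : ∀ ε ∈ Ioo 0 ε₀, 0 < T ε)
    (hTi : Tendsto T (𝓝[>] 0) atTop) (G : ℝ → ℝ → ℝ → ℝ)
    (hm : ∀ ε ∈ Ioo 0 ε₀, ∀ s ∈ Icc s₁ s₂, Monotone (G ε s))
    (hGT : ∀ ε ∈ Ioo 0 ε₀, ∀ s ∈ Icc s₁ s₂, ∀ t, G ε s (t + T ε) = G ε s t + T ε)
    (hc : ContinuousOn (fun p : ℝ × ℝ × ℝ => G p.1 p.2.1 p.2.2) (Ioo 0 ε₀ ×ˢ Icc s₁ s₂ ×ˢ univ))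
    (hgap : ∀ ε ∈ Ioo 0 ε₀, ∀ s ∈ Icc s₁ s₂, ∀ s' ∈ Icc s₁ s₂, s ≤ s' → ∀ t,
      G ε s t + (s' - s) ≤ G ε s' t)
    {c C : ℝ} (hcp : 0 < c)
    (hdisp : (∀ ε ∈ Ioo 0 ε₀, ∀ s ∈ Icc s₁ s₂, ∀ t, t + c ≤ G ε s t ∧ G ε s t ≤ t + C) ∨
      ∀ ε ∈ Ioo 0 ε₀, ∀ s ∈ Icc s₁ s₂, ∀ t, t - C ≤ G ε s t ∧ G ε s t ≤ t - c) :
    ∃ ε ∈ Ioo 0 ε₀, ∀ t₀, ∃ s ∈ Icc s₁ s₂, ∃ k : ℕ, 1 ≤ k ∧ ∃ p : ℤ,
      (G ε s)^[k] t₀ = t₀ + p * T ε := by
  classical
  have hs1 : s₁ ∈ Icc s₁ s₂ := left_mem_Icc.2 hs.le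
  have hs2 : s₂ ∈ Icc s₁ s₂ := right_mem_Icc.2 hs.le
  -- the rotation numbers
  obtain ⟨ρ, hρ⟩ : ∃ ρ : ℝ → ℝ → ℝ, ∀ ε (hε : ε ∈ Ioo 0 ε₀) s (hs : s ∈ Icc s₁ s₂), ρ ε s =
      (nrml (T ε) (hT0 ε hε) (G ε s) (hm ε hε s hs) (hGT ε hε s hs)).translationNumber := by
    refine ⟨fun ε s => if h : ε ∈ Ioo 0 ε₀ ∧ s ∈ Icc s₁ s₂ then
      (nrml (T ε) (hT0 ε h.1) (G ε s) (hm ε h.1 s h.2) (hGT ε h.1 s h.2)).translationNumber else 0,
      fun ε hε s hs => ?_⟩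
    exact dif_pos ⟨hε, hs⟩
  by_contra hcon
  push Not at hcon
  have heq : ∀ ε ∈ Ioo 0 ε₀, ρ ε s₂ ≤ ρ ε s₁ := by
    intro ε hε
    by_contra hlt
    push Not at hlt
    obtain ⟨t₀, ht₀⟩ := hcon ε hε
    rw [hρ ε hε s₁ hs1, hρ ε hε s₂ hs2] at hlt
    obtain ⟨s, hs', k, hk, p, hp⟩ := per_of_lt (hT0 ε hε) hs.le (G ε) (hm ε hε) (hGT ε hε) (by
      have e : (fun p : ℝ × ℝ => G ε p.1 p.2) =
          (fun p : ℝ × ℝ × ℝ => G p.1 p.2.1 p.2.2) ∘ fun p : ℝ × ℝ => (ε, p.1, p.2) := rfl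
      rw [e]
      refine hc.comp (by fun_prop) ?_
      rintro ⟨a, b⟩ ⟨h1, h2⟩
      exact ⟨hε, h1, h2⟩) hlt t₀
    exact ht₀ s hs' k hk p hp
  have hmono : ∀ ε (hε : ε ∈ Ioo 0 ε₀) ε' (hε' : ε' ∈ Ioo 0 ε₀) s (hs : s ∈ Icc s₁ s₂) s'
      (hs' : s' ∈ Icc s₁ s₂), (∀ u, G ε s (u * T ε) / T ε ≤ G ε' s' (u * T ε') / T ε') →
      ρ ε s ≤ ρ ε' s' := by
    intro ε hε ε' hε' s hs s' hs' h
    rw [hρ ε hε s hs, hρ ε' hε' s' hs']
    exact CircleDeg1Lift.translationNumber_mono (fun u => h u)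
  have hsame : ∀ ε ∈ Ioo 0 ε₀, ∀ s ∈ Icc s₁ s₂, ∀ s' ∈ Icc s₁ s₂, s ≤ s' → ρ ε s ≤ ρ ε s' := by
    intro ε hε s hs s' hs' hss
    refine hmono ε hε ε hε s hs s' hs' fun u => ?_
    apply div_le_div_of_nonneg_right _ (hT0 ε hε).le
    have := hgap ε hε s hs s' hs' hss (u * T ε)
    linarith
  have hallm : ∀ ε ∈ Ioo 0 ε₀, ∀ s ∈ Icc s₁ s₂, ρ ε s = ρ ε s₁ := by
    intro ε hε s hs'
    apply le_antisymm
    · exact (hsame ε hε s hs' s₂ hs2 hs'.2).trans (heq ε hε)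
    · exact hsame ε hε s₁ hs1 s hs' hs'.1
  -- local constancy
  have hloc : ∀ ε ∈ Ioo 0 ε₀, ∀ᶠ ε' in 𝓝 ε, ε' ∈ Ioo 0 ε₀ ∧ ρ ε' s₁ = ρ ε s₁ := by
    intro ε hε
    obtain ⟨sm, hsm⟩ : ∃ sm, sm = (s₁ + s₂) / 2 := ⟨_, rfl⟩
    have hsm1 : s₁ < sm := by rw [hsm]; linarith
    have hsm2 : sm < s₂ := by rw [hsm]; linarith
    have hsmI : sm ∈ Icc s₁ s₂ := ⟨hsm1.le, hsm2.le⟩
    have hTε := hT0 ε hε
    obtain ⟨η, hη⟩ : ∃ η, η = (s₂ - s₁) / 2 / T ε := ⟨_, rfl⟩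
    have hη0 : 0 < η := by
      rw [hη]
      have : 0 < s₂ - s₁ := sub_pos.2 hs
      positivity
    -- uniform closeness on `[0,1]`
    obtain ⟨D, hD⟩ : ∃ D : ℝ × ℝ → ℝ, D = fun p => G p.1 sm (p.2 * T p.1) / T p.1 := ⟨_, rfl⟩
    have hDc : ContinuousOn D (Ioo 0 ε₀ ×ˢ (univ : Set ℝ)) := by
      rw [hD]
      have hT1 : ContinuousOn (fun p : ℝ × ℝ => T p.1) (Ioo 0 ε₀ ×ˢ (univ : Set ℝ)) :=
        hTc.comp continuousOn_fst (fun p hp => hp.1)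
      apply ContinuousOn.div _ hT1 (fun p hp => (hT0 p.1 hp.1).ne')
      have e : (fun p : ℝ × ℝ => G p.1 sm (p.2 * T p.1)) =
          (fun p : ℝ × ℝ × ℝ => G p.1 p.2.1 p.2.2) ∘ fun p : ℝ × ℝ => (p.1, sm, p.2 * T p.1) := rfl
      rw [e]
      refine hc.comp (continuousOn_fst.prodMk (continuousOn_const.prodMk
        (continuousOn_snd.mul hT1))) ?_
      rintro ⟨a, b⟩ ⟨h1, h2⟩
      exact ⟨h1, hsmI, mem_univ _⟩
    have hunif : ∀ᶠ ε' in 𝓝 ε, ε' ∈ Ioo 0 ε₀ ∧ ∀ u ∈ Icc (0 : ℝ) 1, |D (ε', u) - D (ε, u)| < η := by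
      have h1 : ∀ u ∈ Icc (0 : ℝ) 1, ∃ A ∈ 𝓝 u, ∃ B ∈ 𝓝 ε, B ⊆ Ioo 0 ε₀ ∧ ∀ v ∈ A, ∀ ε' ∈ B,
          |D (ε', v) - D (ε, v)| < η := by
        intro u _
        have hDa : ContinuousAt D (ε, u) :=
          hDc.continuousAt ((isOpen_Ioo.prod isOpen_univ).mem_nhds ⟨hε, mem_univ _⟩)
        have h2 := Metric.continuousAt_iff'.1 hDa (η / 2) (by positivity)
        rw [nhds_prod_eq] at h2
        obtain ⟨B, hB, A, hA, hAB⟩ := Filter.mem_prod_iff.1 h2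
        refine ⟨A, hA, B ∩ Ioo 0 ε₀, inter_mem hB (isOpen_Ioo.mem_nhds hε), inter_subset_right,
          fun v hv ε' hε' => ?_⟩
        have h3 : dist (D (ε', v)) (D (ε, u)) < η / 2 := hAB (mk_mem_prod hε'.1 hv)
        have h4 : dist (D (ε, v)) (D (ε, u)) < η / 2 := hAB (mk_mem_prod (mem_of_mem_nhds hB) hv)
        rw [← Real.dist_eq]
        calc dist (D (ε', v)) (D (ε, v)) ≤ dist (D (ε', v)) (D (ε, u)) + dist (D (ε, u)) (D (ε, v)) :=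
              dist_triangle _ _ _
          _ < η := by rw [dist_comm (D (ε, u))]; linarith
      have h5 : ∀ S : Set ℝ, S = Icc (0 : ℝ) 1 → ∃ B ∈ 𝓝 ε, B ⊆ Ioo 0 ε₀ ∧ ∀ v ∈ S, ∀ ε' ∈ B,
          |D (ε', v) - D (ε, v)| < η := by
        intro S hS
        have hSc : IsCompact S := by rw [hS]; exact isCompact_Icc
        refine hSc.induction_on (p := fun S : Set ℝ => ∃ B ∈ 𝓝 ε, B ⊆ Ioo 0 ε₀ ∧ ∀ v ∈ S,
          ∀ ε' ∈ B, |D (ε', v) - D (ε, v)| < η) ?_ ?_ ?_ ?_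
        · exact ⟨Ioo 0 ε₀, isOpen_Ioo.mem_nhds hε, Subset.rfl, fun v hv => absurd hv (notMem_empty v)⟩
        · rintro A A' hAA ⟨B, hB, hB', h⟩
          exact ⟨B, hB, hB', fun v hv => h v (hAA hv)⟩
        · rintro A A' ⟨B, hB, hB1, h⟩ ⟨B', hB', hB1', h'⟩
          refine ⟨B ∩ B', inter_mem hB hB', fun x hx => hB1 hx.1, ?_⟩
          rintro v (hv | hv) ε' hε'
          · exact h v hv ε' hε'.1
          · exact h' v hv ε' hε'.2
        · intro u hu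
          rw [hS] at hu
          obtain ⟨A, hA, B, hB, hB1, h⟩ := h1 u hu
          exact ⟨A, mem_nhdsWithin_of_mem_nhds hA, B, hB, hB1, h⟩
      obtain ⟨B, hB, hB1, h⟩ := h5 _ rfl
      filter_upwards [hB] with ε' hε'
      exact ⟨hB1 hε', fun u hu => h u hu ε' hε'⟩
    filter_upwards [hunif] with ε' hε'
    obtain ⟨hε'I, hclose⟩ := hε'
    have hTε' := hT0 ε' hε'I
    -- closeness everywhere
    have hall : ∀ u, |D (ε', u) - D (ε, u)| < η := by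
      intro u
      have h1 : ∀ (ε : ℝ) (hε : ε ∈ Ioo 0 ε₀) (u : ℝ), D (ε, u) = D (ε, Int.fract u) + ⌊u⌋ := by
        intro ε hε u
        obtain ⟨f, hf⟩ : ∃ f, f = nrml (T ε) (hT0 ε hε) (G ε sm) (hm ε hε sm hsmI)
          (hGT ε hε sm hsmI) := ⟨_, rfl⟩
        have h2 : ∀ u, D (ε, u) = f u := by
          intro u
          rw [hf, hD]
          rfl
        rw [h2, h2, ← CircleDeg1Lift.map_add_int, Int.fract_add_floor]
      rw [h1 ε' hε'I u, h1 ε hε u]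
      have h3 := hclose (Int.fract u) ⟨Int.fract_nonneg u, (Int.fract_lt_one u).le⟩
      have e : D (ε', Int.fract u) + ⌊u⌋ - (D (ε, Int.fract u) + ⌊u⌋) =
          D (ε', Int.fract u) - D (ε, Int.fract u) := by ring
      rw [e]
      exact h3
    refine ⟨hε'I, ?_⟩
    have hηT : η * T ε = (s₂ - s₁) / 2 := by
      rw [hη, div_mul_cancel₀ _ hTε.ne']
    have h1 : ρ ε s₁ ≤ ρ ε' sm := by
      refine hmono ε hε ε' hε'I s₁ hs1 sm hsmI fun u => ?_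
      have h2 := hall u
      rw [hD] at h2
      have h3 := (abs_lt.1 h2).1
      have h4 := hgap ε hε s₁ hs1 sm hsmI hsm1.le (u * T ε)
      have h5 : G ε s₁ (u * T ε) / T ε + η ≤ G ε sm (u * T ε) / T ε := by
        rw [div_add' _ _ _ hTε.ne', div_le_div_iff_of_pos_right hTε, hηT]
        rw [hsm] at h4 ⊢
        linarith
      simp only at h3
      linarith
    have h2 : ρ ε' sm ≤ ρ ε s₂ := by
      refine hmono ε' hε'I ε hε sm hsmI s₂ hs2 fun u => ?_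
      have h2 := hall u
      rw [hD] at h2
      have h3 := (abs_lt.1 h2).2
      have h4 := hgap ε hε sm hsmI s₂ hs2 hsm2.le (u * T ε)
      have h5 : G ε sm (u * T ε) / T ε + η ≤ G ε s₂ (u * T ε) / T ε := by
        rw [div_add' _ _ _ hTε.ne', div_le_div_iff_of_pos_right hTε, hηT]
        rw [hsm] at h4 ⊢
        linarith
      simp only at h3
      linarith
    have h3 := hallm ε' hε'I sm hsmI
    have h4 := hallm ε hε s₂ hs2
    rw [h3] at h1 h2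
    rw [h4] at h2
    exact le_antisymm h2 h1
  -- constancy
  have hconst : ∀ ε ∈ Ioo 0 ε₀, ∀ ε' ∈ Ioo 0 ε₀, ρ ε s₁ = ρ ε' s₁ := by
    intro ε hε ε' hε'
    obtain ⟨φ, hφ⟩ : ∃ φ : Ioo 0 ε₀ → ℝ, φ = fun x : Ioo 0 ε₀ => ρ (x : ℝ) s₁ := ⟨_, rfl⟩
    have h1 : IsLocallyConstant φ := by
      rw [IsLocallyConstant.iff_eventually_eq]
      rintro ⟨x, hx⟩
      have h2 := hloc x hx
      rw [hφ]
      have h3 : Tendsto (fun y : Ioo 0 ε₀ => (y : ℝ)) (𝓝 ⟨x, hx⟩) (𝓝 x) :=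
        continuous_subtype_val.tendsto _
      filter_upwards [h3.eventually h2] with y hy
      exact hy.2
    have : PreconnectedSpace (Ioo 0 ε₀) := isPreconnected_iff_preconnectedSpace.1 isPreconnected_Ioo
    have h2 := h1.apply_eq_of_preconnectedSpace ⟨ε, hε⟩ ⟨ε', hε'⟩
    rw [hφ] at h2
    exact h2
  -- contradiction as `ε → 0`
  obtain ⟨ε₁, hε₁⟩ : ∃ ε₁, ε₁ = ε₀ / 2 := ⟨_, rfl⟩
  have hε₁I : ε₁ ∈ Ioo 0 ε₀ := by rw [hε₁]; constructor <;> linarith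
  have hbd : ∀ ε ∈ Ioo 0 ε₀, |ρ ε s₁| ≤ |C| / T ε ∧ c / T ε ≤ |ρ ε s₁| := by
    intro ε hε
    have hTε := hT0 ε hε
    rw [hρ ε hε s₁ hs1]
    rcases hdisp with hd | hd
    · have h1 : CircleDeg1Lift.translationNumber (nrml (T ε) (hT0 ε hε) (G ε s₁) (hm ε hε s₁ hs1)
          (hGT ε hε s₁ hs1)) ≤ C / T ε := by
        apply CircleDeg1Lift.translationNumber_le_of_le_add
        intro x
        rw [nrml_apply, div_le_iff₀ hTε, add_mul, div_mul_cancel₀ _ hTε.ne']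
        exact (hd ε hε s₁ hs1 (x * T ε)).2
      have h2 : c / T ε ≤ CircleDeg1Lift.translationNumber (nrml (T ε) (hT0 ε hε) (G ε s₁)
          (hm ε hε s₁ hs1) (hGT ε hε s₁ hs1)) := by
        apply CircleDeg1Lift.le_translationNumber_of_add_le
        intro x
        rw [nrml_apply, le_div_iff₀ hTε, add_mul, div_mul_cancel₀ _ hTε.ne']
        exact (hd ε hε s₁ hs1 (x * T ε)).1
      have h3 : 0 < c / T ε := div_pos hcp hTε
      rw [abs_of_pos (h3.trans_le h2)]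
      exact ⟨h1.trans (div_le_div_of_nonneg_right (le_abs_self C) hTε.le), h2⟩
    · have h1 : CircleDeg1Lift.translationNumber (nrml (T ε) (hT0 ε hε) (G ε s₁) (hm ε hε s₁ hs1)
          (hGT ε hε s₁ hs1)) ≤ -c / T ε := by
        apply CircleDeg1Lift.translationNumber_le_of_le_add
        intro x
        rw [nrml_apply, div_le_iff₀ hTε, add_mul, div_mul_cancel₀ _ hTε.ne']
        have := (hd ε hε s₁ hs1 (x * T ε)).2
        linarith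
      have h2 : -C / T ε ≤ CircleDeg1Lift.translationNumber (nrml (T ε) (hT0 ε hε) (G ε s₁)
          (hm ε hε s₁ hs1) (hGT ε hε s₁ hs1)) := by
        apply CircleDeg1Lift.le_translationNumber_of_add_le
        intro x
        rw [nrml_apply, le_div_iff₀ hTε, add_mul, div_mul_cancel₀ _ hTε.ne']
        have := (hd ε hε s₁ hs1 (x * T ε)).1
        linarith
      have h3 : 0 < c / T ε := div_pos hcp hTε
      rw [neg_div] at h1 h2
      have h4 : CircleDeg1Lift.translationNumber (nrml (T ε) (hT0 ε hε) (G ε s₁) (hm ε hε s₁ hs1)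
          (hGT ε hε s₁ hs1)) < 0 := by linarith
      rw [abs_of_neg h4]
      have h5 := div_le_div_of_nonneg_right (le_abs_self C) hTε.le
      exact ⟨by linarith, by linarith⟩
  have hpos : 0 < |ρ ε₁ s₁| := (div_pos hcp (hT0 ε₁ hε₁I)).trans_le (hbd ε₁ hε₁I).2
  have hlim : ∀ᶠ ε in 𝓝[>] (0 : ℝ), |C| / |ρ ε₁ s₁| < T ε := hTi.eventually_gt_atTop _
  have hev : ∀ᶠ ε in 𝓝[>] (0 : ℝ), ε ∈ Ioo 0 ε₀ := Ioo_mem_nhdsGT hε₀
  obtain ⟨ε, h1, h2⟩ := (hlim.and hev).exists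
  have h3 := (hbd ε h2).1
  rw [hconst ε h2 ε₁ hε₁I, le_div_iff₀ (hT0 ε h2)] at h3
  rw [div_lt_iff₀ hpos] at h1
  nlinarith

end Pool.Agent.KS6_36.LH
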