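import Pool.Agent.KS6_36.LH.Hyp
import Pool.Agent.KS6_36.LH.Circ

/-!
# Leafwise maps of the flows `e ε`: periodic points near `z`
-/

set_option autoImplicit false
set_option linter.unusedSectionVars false

open Filter Set Topology

universe u

namespace Pool.Agent.KS6_36.LH

open Pool.Agent.TH382.QC Pool.Agent.TH382.HS Pool.Agent.H718R2.G

/-- the displacement of the iterates -/
noncomputable def DD {N : Type u} (ρ : SL2 → N → N) (σ : N → ℝ) (f : N → N) : ℕ → ℝ × ℝ → N → ℝ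
  | 0, _, _ => 0
  | i + 1, p, w => DD ρ σ f i p w + (σ (ρ (e p.1 (DD ρ σ f i p w)) (f^[i + 1] w)) + p.2)

/-- the perturbed maps -/
noncomputable def FF {N : Type u} (ρ : SL2 → N → N) (σ : N → ℝ) (f : N → N) (p : ℝ × ℝ) (y : N) : N :=
  ρ (e p.1 (σ (f y) + p.2)) (f y)

theorem mono_of_inj {g : ℝ → ℝ} (hg : Continuous g) (hi : Function.Injective g) {B : ℝ}
    (hB : ∀ t, |g t - t| ≤ B) : StrictMono g := by
  rcases hg.strictMono_of_inj hi with h | h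
  · exact h
  · exfalso
    have h1 := h (show (0 : ℝ) < |g 0| + B + 1 by
      have := abs_nonneg (g 0)
      have := (abs_nonneg _).trans (hB 0)
      linarith)
    have h2 := (abs_le.1 (hB (|g 0| + B + 1))).1
    have h3 := le_abs_self (g 0)
    linarith

section core

variable {N : Type u} [TopologicalSpace N] [CompactSpace N] {ρ : SL2 → N → N}
  (hρ1 : ∀ y, ρ 1 y = y) (hρm : ∀ g h y, ρ (g * h) y = ρ g (ρ h y))
  (hρc : Continuous (fun p : SL2 × N => ρ p.1 p.2)) {σ : N → ℝ} (hσ : Continuous σ)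
  {f : N → N} (hf : Continuous f) (hfρ : Commutes ρ f)

include hρm hfρ hρ1 in
theorem FF_iter (i : ℕ) (p : ℝ × ℝ) (w : N) :
    (FF ρ σ f p)^[i] w = ρ (e p.1 (DD ρ σ f i p w)) (f^[i] w) := by
  induction i with
  | zero =>
    show w = ρ (e p.1 0) w
    rw [e_zero, hρ1]
  | succ i ih =>
    rw [Function.iterate_succ_apply', ih]
    show ρ (e p.1 (σ (f (ρ (e p.1 (DD ρ σ f i p w)) (f^[i] w))) + p.2))
      (f (ρ (e p.1 (DD ρ σ f i p w)) (f^[i] w))) = ρ (e p.1 (DD ρ σ f i p w +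
        (σ (ρ (e p.1 (DD ρ σ f i p w)) (f^[i + 1] w)) + p.2))) (f^[i + 1] w)
    rw [hfρ, ← Function.iterate_succ_apply' f, add_comm (DD ρ σ f i p w), ← hρm, ← e_add]

include hρc hσ hf in
theorem DD_cont (i : ℕ) : Continuous (fun q : (ℝ × ℝ) × N => DD ρ σ f i q.1 q.2) := by
  induction i with
  | zero => exact continuous_const
  | succ i ih =>
    have h1 : Continuous (fun q : (ℝ × ℝ) × N => e q.1.1 (DD ρ σ f i q.1 q.2)) :=
      e_cont.comp ((continuous_fst.comp continuous_fst).prodMk ih)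
    have h2 : Continuous (fun q : (ℝ × ℝ) × N => f^[i + 1] q.2) :=
      (hf.iterate _).comp continuous_snd
    exact ih.add ((hσ.comp (hρc.comp (h1.prodMk h2))).add (continuous_snd.comp continuous_fst))

theorem DD_bound {S : ℝ} (hS : ∀ w, |σ w| ≤ S) (i : ℕ) (p : ℝ × ℝ) (w : N) :
    |DD ρ σ f i p w| ≤ i * (S + |p.2|) := by
  induction i with
  | zero =>
    show |(0 : ℝ)| ≤ _
    simp
  | succ i ih =>
    show |DD ρ σ f i p w + (σ (ρ (e p.1 (DD ρ σ f i p w)) (f^[i + 1] w)) + p.2)| ≤ _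
    have h1 := abs_add_le (DD ρ σ f i p w) (σ (ρ (e p.1 (DD ρ σ f i p w)) (f^[i + 1] w)) + p.2)
    have h2 := abs_add_le (σ (ρ (e p.1 (DD ρ σ f i p w)) (f^[i + 1] w))) p.2
    have h3 := hS (ρ (e p.1 (DD ρ σ f i p w)) (f^[i + 1] w))
    push_cast
    linarith

include hρm hρc hσ in
theorem A_mono {S : ℝ} (hS : ∀ w, |σ w| ≤ S) {ε s : ℝ}
    (hA : Function.Injective (fun w => ρ (e ε (σ w + s)) w)) (w : N) :
    StrictMono (fun t => t + (σ (ρ (e ε t) w) + s)) := by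
  have hc : Continuous (fun t => t + (σ (ρ (e ε t) w) + s)) := by
    have h1 : Continuous (fun t : ℝ => e ε t) := e_cont.comp (continuous_const.prodMk continuous_id)
    exact continuous_id.add ((hσ.comp (hρc.comp (h1.prodMk continuous_const))).add continuous_const)
  apply mono_of_inj hc (B := S + |s|)
  · intro t t' htt
    have h1 : ∀ t, (fun w => ρ (e ε (σ w + s)) w) (ρ (e ε t) w) =
        ρ (e ε (t + (σ (ρ (e ε t) w) + s))) w := by
      intro t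
      show ρ (e ε (σ (ρ (e ε t) w) + s)) (ρ (e ε t) w) = _
      rw [← hρm, ← e_add, add_comm]
    have h2 := h1 t
    have h3 : (fun t => t + (σ (ρ (e ε t) w) + s)) t = (fun t => t + (σ (ρ (e ε t) w) + s)) t' := htt
    have h3' : t + (σ (ρ (e ε t) w) + s) = t' + (σ (ρ (e ε t') w) + s) := h3
    rw [h3', ← h1 t'] at h2
    have h4 := hA h2
    rw [h4] at h3'
    linarith
  · intro t
    have h1 : t + (σ (ρ (e ε t) w) + s) - t = σ (ρ (e ε t) w) + s := by ring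
    rw [h1]
    exact (abs_add_le _ _).trans (add_le_add (hS _) le_rfl)

include hρm hρc hσ in
theorem DD_gap {S : ℝ} (hS : ∀ w, |σ w| ≤ S) {ε s s' : ℝ} (hss : s ≤ s')
    (hA : Function.Injective (fun w => ρ (e ε (σ w + s)) w)) (i : ℕ) (w : N) :
    DD ρ σ f i (ε, s) w ≤ DD ρ σ f i (ε, s') w ∧
      (1 ≤ i → DD ρ σ f i (ε, s) w + (s' - s) ≤ DD ρ σ f i (ε, s') w) := by
  induction i with
  | zero => exact ⟨le_rfl, fun h => absurd h (by norm_num)⟩
  | succ i ih =>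
    have h1 := (A_mono hρm hρc hσ hS hA (f^[i + 1] w)).monotone ih.1
    have h2 : DD ρ σ f (i + 1) (ε, s) w + (s' - s) ≤ DD ρ σ f (i + 1) (ε, s') w := by
      show DD ρ σ f i (ε, s) w + (σ (ρ (e ε (DD ρ σ f i (ε, s) w)) (f^[i + 1] w)) + s) + (s' - s) ≤
        DD ρ σ f i (ε, s') w + (σ (ρ (e ε (DD ρ σ f i (ε, s') w)) (f^[i + 1] w)) + s')
      have h3 : DD ρ σ f i (ε, s) w + (σ (ρ (e ε (DD ρ σ f i (ε, s) w)) (f^[i + 1] w)) + s) ≤
          DD ρ σ f i (ε, s') w + (σ (ρ (e ε (DD ρ σ f i (ε, s') w)) (f^[i + 1] w)) + s) := h1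
      linarith
    exact ⟨by linarith, fun _ => h2⟩

/-- the stabiliser -/
def stab (hρ1 : ∀ y, ρ 1 y = y) (hρm : ∀ g h y, ρ (g * h) y = ρ g (ρ h y)) (z : N) :
    Subgroup SL2 where
  carrier := {g | ρ g z = z}
  mul_mem' := by
    intro a b ha hb
    show ρ (a * b) z = z
    rw [hρm, show ρ b z = z from hb, show ρ a z = z from ha]
  one_mem' := hρ1 z
  inv_mem' := by
    intro a ha
    show ρ a⁻¹ z = z
    have h1 : ρ a⁻¹ (ρ a z) = z := by rw [← hρm, inv_mul_cancel, hρ1]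
    rwa [show ρ a z = z from ha] at h1

theorem mem_stab {z : N} {g : SL2} : g ∈ stab hρ1 hρm z ↔ ρ g z = z := Iff.rfl

theorem stab_K {z : N} {K : Set SL2} (hK : ∀ g, ∃ k ∈ K, ρ g z = ρ k z) :
    ∀ g, ∃ k ∈ K, k⁻¹ * g ∈ stab hρ1 hρm z := by
  intro g
  obtain ⟨k, hk, hgk⟩ := hK g
  refine ⟨k, hk, ?_⟩
  show ρ (k⁻¹ * g) z = z
  rw [hρm, hgk, ← hρm, inv_mul_cancel, hρ1]

include hρ1 hρm hρc hσ hf hfρ in
/-- the core of the proof -/
theorem core {z : N} (hz : IsLatticePt ρ z) {q : ℕ} (hq : 1 ≤ q) (hfq : f^[q] z = z)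
    (hfinj : Function.Injective f) {κ : ℝ} (hκ : 0 < κ)
    (hinj : ∀ p : ℝ × ℝ, ‖p‖ < κ → Function.Injective (fun w => ρ (e p.1 (σ w + p.2)) w))
    (hsign : (∀ g, 0 ≤ DD ρ σ f q 0 (ρ g z)) ∨ ∀ g, DD ρ σ f q 0 (ρ g z) ≤ 0)
    {δ : ℝ} (hδ : 0 < δ) {O : Set N} (hO : O ∈ 𝓝 z) :
    ∃ p : ℝ × ℝ, ‖p‖ < δ ∧ ∃ y ∈ O, IsPer (FF ρ σ f p) y := by
  obtain ⟨⟨W, hW, hWz⟩, K, hK, hKz⟩ := hz
  have hKΓ := stab_K hρ1 hρm hKz
  have hWΓ : ∀ g ∈ W, g ∈ stab hρ1 hρm z → g = 1 := hWz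
  obtain ⟨S, hS⟩ : ∃ S : ℝ, ∀ w, |σ w| ≤ S := by
    obtain ⟨S, hS⟩ := (isCompact_range hσ).isBounded.exists_norm_le
    exact ⟨S, fun w => hS _ (mem_range_self w)⟩
  obtain ⟨ℓ, hℓ, gg, hgg, γ, hγ, hclosed⟩ := closed_orbits hW hWΓ hK hKΓ
  obtain ⟨δ', hδ', hδ'δ, hδ'κ⟩ : ∃ δ', 0 < δ' ∧ δ' ≤ δ ∧ δ' ≤ κ :=
    ⟨min δ κ, lt_min hδ hκ, min_le_left _ _, min_le_right _ _⟩
  have hfi : ∀ (i : ℕ) (g : SL2) (w : N), f^[i] (ρ g w) = ρ g (f^[i] w) := by
    intro i g w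
    induction i with
    | zero => rfl
    | succ i ih => rw [Function.iterate_succ_apply', ih, hfρ, ← Function.iterate_succ_apply' f]
  have hDc : Continuous (fun q' : (ℝ × ℝ) × N => DD ρ σ f q q'.1 q'.2) := DD_cont hρc hσ hf q
  -- the set of small parameters
  have hO' : IsOpen {g : SL2 | ρ g z ∈ interior O} := by
    have : Continuous (fun g : SL2 => ρ g z) := hρc.comp (continuous_id.prodMk continuous_const)
    exact isOpen_interior.preimage this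
  have happ := approach hW hWΓ hK hKΓ _ hO' ⟨1, by
    show ρ 1 z ∈ interior O
    rw [hρ1]
    exact mem_interior_iff_mem_nhds.2 hO⟩
  have h00 : ‖((0 : ℝ), (0 : ℝ))‖ < κ := by
    rw [show ((0 : ℝ), (0 : ℝ)) = 0 from rfl, norm_zero]
    exact hκ
  -- the displacements
  obtain ⟨s₁, s₂, c, hs, hsδ, hc0, hdisp⟩ : ∃ s₁ s₂ c : ℝ, s₁ < s₂ ∧
      (∀ s ∈ Icc s₁ s₂, |s| < δ') ∧ 0 < c ∧ ∀ᶠ ε in 𝓝 (0 : ℝ),
      ((∀ s ∈ Icc s₁ s₂, ∀ g, c ≤ DD ρ σ f q (ε, s) (ρ g z)) ∨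
        ∀ s ∈ Icc s₁ s₂, ∀ g, DD ρ σ f q (ε, s) (ρ g z) ≤ -c) := by
    have hdc : Continuous (fun u : ℝ × (ℝ × SL2) => DD ρ σ f q (u.1, u.2.1) (ρ u.2.2 z)) := by
      have h1 : Continuous (fun u : ℝ × (ℝ × SL2) => (((u.1, u.2.1) : ℝ × ℝ), ρ u.2.2 z)) :=
        (continuous_fst.prodMk (continuous_fst.comp continuous_snd)).prodMk
          (hρc.comp ((continuous_snd.comp continuous_snd).prodMk continuous_const))
      exact hDc.comp h1
    rcases hsign with hsign | hsign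
    · refine ⟨δ' / 4, δ' / 2, δ' / 8, by linarith, ?_, by linarith, ?_⟩
      · intro s hs
        rw [abs_of_pos (by linarith [hs.1])]
        linarith [hs.2]
      · have h1 : ∀ᶠ ε in 𝓝 (0 : ℝ), ∀ u ∈ Icc (δ' / 4) (δ' / 2) ×ˢ K,
            δ' / 8 < DD ρ σ f q (ε, u.1) (ρ u.2 z) := by
          apply (isCompact_Icc.prod hK).eventually_forall_of_forall_eventually
            (P := fun ε (u : ℝ × SL2) => δ' / 8 < DD ρ σ f q (ε, u.1) (ρ u.2 z))
          rintro ⟨s, k⟩ ⟨hs, -⟩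
          apply (hdc.tendsto (0, (s, k))).eventually (lt_mem_nhds _)
          show δ' / 8 < DD ρ σ f q (0, s) (ρ k z)
          have h2 := (DD_gap (f := f) hρm hρc hσ hS (s := 0) (s' := s) (ε := 0)
            (by linarith [hs.1]) (hinj (0, 0) h00) q (ρ k z)).2 hq
          have h3 : 0 ≤ DD ρ σ f q (0, 0) (ρ k z) := hsign k
          have h4 : δ' / 4 ≤ s := hs.1
          linarith
        filter_upwards [h1] with ε hε
        left
        intro s hs g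
        obtain ⟨k, hk, hgk⟩ := hKz g
        rw [hgk]
        exact (hε (s, k) ⟨hs, hk⟩).le
    · refine ⟨-(δ' / 2), -(δ' / 4), δ' / 8, by linarith, ?_, by linarith, ?_⟩
      · intro s hs
        rw [abs_of_neg (by linarith [hs.2])]
        linarith [hs.1]
      · have h1 : ∀ᶠ ε in 𝓝 (0 : ℝ), ∀ u ∈ Icc (-(δ' / 2)) (-(δ' / 4)) ×ˢ K,
            DD ρ σ f q (ε, u.1) (ρ u.2 z) < -(δ' / 8) := by
          apply (isCompact_Icc.prod hK).eventually_forall_of_forall_eventually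
            (P := fun ε (u : ℝ × SL2) => DD ρ σ f q (ε, u.1) (ρ u.2 z) < -(δ' / 8))
          rintro ⟨s, k⟩ ⟨hs, -⟩
          apply (hdc.tendsto (0, (s, k))).eventually (gt_mem_nhds _)
          show DD ρ σ f q (0, s) (ρ k z) < -(δ' / 8)
          have h5 : s ≤ -(δ' / 4) := hs.2
          have h5' : -(δ' / 2) ≤ s := hs.1
          have hsκ : ‖((0 : ℝ), s)‖ < κ := by
            rw [Prod.norm_mk, norm_zero, Real.norm_eq_abs, abs_of_neg (by linarith)]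
            exact max_lt hκ (by linarith)
          have h2 := (DD_gap (f := f) hρm hρc hσ hS (s := s) (s' := 0) (ε := 0)
            (by linarith) (hinj (0, s) hsκ) q (ρ k z)).2 hq
          have h3 : DD ρ σ f q (0, 0) (ρ k z) ≤ 0 := hsign k
          linarith
        filter_upwards [h1] with ε hε
        right
        intro s hs g
        obtain ⟨k, hk, hgk⟩ := hKz g
        rw [hgk]
        exact (hε (s, k) ⟨hs, hk⟩).le
  obtain ⟨ε₁, hε₁, hε₁P⟩ := Metric.eventually_nhds_iff.1 (happ.and hdisp)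
  obtain ⟨ε₀, hε₀, hε₀1, hε₀δ⟩ : ∃ ε₀, 0 < ε₀ ∧ ε₀ ≤ ε₁ ∧ ε₀ ≤ δ' :=
    ⟨min ε₁ δ', lt_min hε₁ hδ', min_le_left _ _, min_le_right _ _⟩
  have hP : ∀ ε ∈ Ioo 0 ε₀, _ := fun ε hε => hε₁P (y := ε) (by
    rw [Real.dist_eq, sub_zero, abs_of_pos hε.1]
    linarith [hε.2])
  have hpκ : ∀ ε ∈ Ioo 0 ε₀, ∀ s ∈ Icc s₁ s₂, ‖((ε : ℝ), s)‖ < δ' := by
    intro ε hε s hs
    rw [Prod.norm_mk, Real.norm_eq_abs, Real.norm_eq_abs, abs_of_pos hε.1]
    exact max_lt (by linarith [hε.2]) (hsδ s hs)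
  have hpi : ∀ ε ∈ Ioo 0 ε₀, ∀ s ∈ Icc s₁ s₂,
      Function.Injective (fun w => ρ (e ε (σ w + s)) w) := fun ε hε s hs =>
    hinj (ε, s) ((hpκ ε hε s hs).trans_le hδ'κ)
  -- the closed orbits
  let cc : ℝ → ℝ → N := fun ε t => ρ (e ε t * gg ε) z
  have hcc : ∀ ε t, cc ε t = ρ (e ε t * gg ε) z := fun _ _ => rfl
  have hcadd : ∀ ε t t', ρ (e ε t) (cc ε t') = cc ε (t + t') := by
    intro ε t t'
    rw [hcc, hcc, ← hρm, ← mul_assoc, ← e_add]
  have hcper : ∀ ε ∈ Ioo 0 ε₀, ∀ t, cc ε (t + ℓ / ε) = cc ε t := by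
    intro ε hε t
    rw [hcc, hcc, e_add, mul_assoc, hclosed ε hε.1, ← mul_assoc, hρm, show ρ γ z = z from hγ]
  have hcq : ∀ ε t, f^[q] (cc ε t) = cc ε t := by
    intro ε t
    rw [hcc, hfi, hfq]
  let G : ℝ → ℝ → ℝ → ℝ := fun ε s t => t + DD ρ σ f q (ε, s) (cc ε t)
  have hFG : ∀ ε s t, (FF ρ σ f (ε, s))^[q] (cc ε t) = cc ε (G ε s t) := by
    intro ε s t
    rw [FF_iter hρ1 hρm hfρ, hcq, hcadd, add_comm]
  have hFinj : ∀ ε ∈ Ioo 0 ε₀, ∀ s ∈ Icc s₁ s₂, Function.Injective ((FF ρ σ f (ε, s))^[q]) :=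
    fun ε hε s hs => ((hpi ε hε s hs).comp hfinj).iterate q
  have hcccont : ContinuousOn (fun p : ℝ × ℝ => cc p.1 p.2) (Ioi 0 ×ˢ univ) := by
    have h1 : ContinuousOn (fun p : ℝ × ℝ => e p.1 p.2 * gg p.1) (Ioi 0 ×ˢ univ) :=
      e_cont.continuousOn.mul (hgg.comp continuous_fst.continuousOn fun p hp => hp.1)
    have h2 : Continuous (fun g : SL2 => ρ g z) := hρc.comp (continuous_id.prodMk continuous_const)
    exact h2.comp_continuousOn h1
  have hGcont : ContinuousOn (fun p : ℝ × ℝ × ℝ => G p.1 p.2.1 p.2.2)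
      (Ioo 0 ε₀ ×ˢ Icc s₁ s₂ ×ˢ univ) := by
    have h1 : ContinuousOn (fun p : ℝ × ℝ × ℝ => cc p.1 p.2.2) (Ioo 0 ε₀ ×ˢ Icc s₁ s₂ ×ˢ univ) := by
      apply hcccont.comp (f := fun p : ℝ × ℝ × ℝ => ((p.1, p.2.2) : ℝ × ℝ))
      · exact (continuous_fst.prodMk (continuous_snd.comp continuous_snd)).continuousOn
      · intro p hp
        exact ⟨hp.1.1, trivial⟩
    have h2 : ContinuousOn (fun p : ℝ × ℝ × ℝ => (((p.1, p.2.1) : ℝ × ℝ), cc p.1 p.2.2))
        (Ioo 0 ε₀ ×ˢ Icc s₁ s₂ ×ˢ univ) :=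
      (continuous_fst.prodMk (continuous_fst.comp continuous_snd)).continuousOn.prodMk h1
    exact (continuous_snd.comp continuous_snd).continuousOn.add (hDc.comp_continuousOn h2)
  have hGbd : ∀ ε s t, |G ε s t - t| ≤ q * (S + |s|) := by
    intro ε s t
    show |t + DD ρ σ f q (ε, s) (cc ε t) - t| ≤ _
    rw [add_sub_cancel_left]
    exact DD_bound hS q (ε, s) _
  have hGc1 : ∀ ε ∈ Ioo 0 ε₀, ∀ s, Continuous (G ε s) := by
    intro ε hε s
    have h1 : Continuous (fun t => cc ε t) := by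
      have h2 : Continuous (fun t : ℝ => e ε t * gg ε) :=
        (e_cont.comp (continuous_const.prodMk continuous_id)).mul continuous_const
      exact hρc.comp (h2.prodMk continuous_const)
    exact continuous_id.add (hDc.comp (continuous_const.prodMk h1))
  have hGm : ∀ ε ∈ Ioo 0 ε₀, ∀ s ∈ Icc s₁ s₂, Monotone (G ε s) := by
    intro ε hε s hs
    refine (mono_of_inj (hGc1 ε hε s) ?_ (hGbd ε s)).monotone
    intro t t' htt
    have h1 : cc ε t = cc ε t' := by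
      apply hFinj ε hε s hs
      rw [hFG, hFG, htt]
    have h2 : t + DD ρ σ f q (ε, s) (cc ε t) = t' + DD ρ σ f q (ε, s) (cc ε t') := htt
    rw [h1] at h2
    linarith
  have hG : ∃ ε ∈ Ioo 0 ε₀, ∀ t₀, ∃ s ∈ Icc s₁ s₂, ∃ k : ℕ, 1 ≤ k ∧ ∃ p : ℤ,
      (G ε s)^[k] t₀ = t₀ + p * (ℓ / ε) := by
    have hcpr : ∀ ε ∈ Ioo 0 ε₀, ∀ s ∈ Icc s₁ s₂, ∀ t, G ε s (t + ℓ / ε) = G ε s t + ℓ / ε := by
      intro ε hε s hs t
      show t + ℓ / ε + DD ρ σ f q (ε, s) (cc ε (t + ℓ / ε)) =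
        t + DD ρ σ f q (ε, s) (cc ε t) + ℓ / ε
      rw [hcper ε hε]
      ring
    have hgap : ∀ ε ∈ Ioo 0 ε₀, ∀ s ∈ Icc s₁ s₂, ∀ s' ∈ Icc s₁ s₂, s ≤ s' → ∀ t,
        G ε s t + (s' - s) ≤ G ε s' t := by
      intro ε hε s hs s' hs' hss t
      have h1 := (DD_gap (f := f) hρm hρc hσ hS hss (hpi ε hε s hs) q (cc ε t)).2 hq
      show t + DD ρ σ f q (ε, s) (cc ε t) + (s' - s) ≤ t + DD ρ σ f q (ε, s') (cc ε t)
      linarith
    have hTc : ContinuousOn (fun ε : ℝ => ℓ / ε) (Ioo 0 ε₀) :=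
      continuousOn_const.div continuousOn_id fun ε hε => hε.1.ne'
    have hTi : Tendsto (fun ε : ℝ => ℓ / ε) (𝓝[>] 0) atTop := by
      simp only [div_eq_mul_inv]
      exact tendsto_inv_nhdsGT_zero.const_mul_atTop hℓ
    obtain ⟨S', hS'⟩ : ∃ S', ∀ s ∈ Icc s₁ s₂, (q : ℝ) * (S + |s|) ≤ S' := by
      refine ⟨q * (S + δ'), fun s hs => ?_⟩
      have := hsδ s hs
      apply mul_le_mul_of_nonneg_left _ (Nat.cast_nonneg q)
      linarith
    -- the two signs, for a fixed small parameter; the sign does not depend on the parameter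
    by_cases hpos : ∀ ε ∈ Ioo 0 ε₀, ∀ s ∈ Icc s₁ s₂, ∀ t, t + c ≤ G ε s t
    · refine tune hε₀ hs (fun ε => ℓ / ε) hTc (fun ε hε => div_pos hℓ hε.1) hTi G hGm hcpr hGcont
        hgap hc0 (C := S') (Or.inl fun ε hε s hs t => ⟨hpos ε hε s hs t, ?_⟩)
      have h1 := (abs_le.1 (hGbd ε s t)).2
      linarith [hS' s hs]
    · have hneg : ∀ ε ∈ Ioo 0 ε₀, ∀ s ∈ Icc s₁ s₂, ∀ t, G ε s t ≤ t - c := by
        push Not at hpos
        obtain ⟨ε', hε', s', hs', t', ht'⟩ := hpos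
        -- connectedness
        have hpre : IsPreconnected ((Ioo 0 ε₀ ×ˢ Icc s₁ s₂ ×ˢ (univ : Set ℝ)) : Set (ℝ × ℝ × ℝ)) :=
          isPreconnected_Ioo.prod (isPreconnected_Icc.prod isPreconnected_univ)
        intro ε hε s hs t
        by_contra hcon
        push Not at hcon
        have hcase : ∀ ε ∈ Ioo 0 ε₀, ∀ s ∈ Icc s₁ s₂, ∀ t, c ≤ G ε s t - t ∨ G ε s t - t ≤ -c := by
          intro ε hε s hs t
          have h0 : G ε s t - t = DD ρ σ f q (ε, s) (ρ (e ε t * gg ε) z) := by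
            show t + DD ρ σ f q (ε, s) (cc ε t) - t = _
            rw [add_sub_cancel_left]
          rw [h0]
          rcases (hP ε hε).2 with h1 | h1
          · exact Or.inl (h1 s hs _)
          · exact Or.inr (h1 s hs _)
        have hcont2 : ContinuousOn (fun p : ℝ × ℝ × ℝ => G p.1 p.2.1 p.2.2 - p.2.2)
            (Ioo 0 ε₀ ×ˢ Icc s₁ s₂ ×ˢ univ) :=
          hGcont.sub (continuous_snd.comp continuous_snd).continuousOn
        have hlow : G ε' s' t' - t' ≤ 0 := by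
          rcases hcase ε' hε' s' hs' t' with h1 | h1 <;> linarith
        have hhigh : 0 ≤ G ε s t - t := by
          rcases hcase ε hε s hs t with h1 | h1 <;> linarith
        obtain ⟨⟨ε'', s'', t''⟩, hmem, h0⟩ := hpre.intermediate_value
          (show ((ε', s', t') : ℝ × ℝ × ℝ) ∈ _ from ⟨hε', hs', trivial⟩)
          (show ((ε, s, t) : ℝ × ℝ × ℝ) ∈ _ from ⟨hε, hs, trivial⟩) hcont2 ⟨hlow, hhigh⟩
        have h0' : G ε'' s'' t'' - t'' = 0 := h0
        rcases hcase ε'' hmem.1 s'' hmem.2.1 t'' with h1 | h1 <;> linarith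
      refine tune hε₀ hs (fun ε => ℓ / ε) hTc (fun ε hε => div_pos hℓ hε.1) hTi G hGm hcpr hGcont
        hgap hc0 (C := S') (Or.inr fun ε hε s hs t => ⟨?_, hneg ε hε s hs t⟩)
      have h1 := (abs_le.1 (hGbd ε s t)).1
      linarith [hS' s hs]
  obtain ⟨ε, hε, hG⟩ := hG
  obtain ⟨t₀, γ', hγ', ht₀⟩ := (hP ε hε).1 (gg ε)
  obtain ⟨s, hs', k, hk, p, hkp⟩ := hG t₀
  refine ⟨(ε, s), (hpκ ε hε s hs').trans_le hδ'δ, cc ε t₀, ?_, q * k, Nat.mul_pos hq hk, ?_⟩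
  · have h1 : ρ (e ε t₀ * gg ε * γ') z ∈ interior O := ht₀
    rw [hρm, show ρ γ' z = z from hγ'] at h1
    exact interior_subset h1
  · rw [Function.iterate_mul]
    have h1 : Function.Semiconj (cc ε) (G ε s) ((FF ρ σ f (ε, s))^[q]) := fun t => (hFG ε s t).symm
    rw [← (h1.iterate_right k).eq t₀, hkp]
    have h2 : Function.Periodic (cc ε) (ℓ / ε) := fun t => hcper ε hε t
    exact h2.int_mul p t₀

end core

end Pool.Agent.KS6_36.LH
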