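import Pool.Graph.R_seed8.TH382.HS.Defs

/-!
# One-parameter subgroups of `SL(2, ℝ)` which converge to the horocycle flow
-/

set_option autoImplicit false

open scoped Manifold ContDiff Topology
open Filter Set

universe u

namespace Pool.Agent.KS6_36.LH

open Pool.Agent.H718R2.G Pool.Agent.TH382.QC Pool.Agent.TH382.HS

/-- `sinh x / x` -/
noncomputable def shc (x : ℝ) : ℝ := dslope Real.sinh 0 x

theorem shc_zero : shc 0 = 1 := by
  unfold shc
  rw [dslope_same, Real.deriv_sinh, Real.cosh_zero]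

theorem mul_shc (x : ℝ) : x * shc x = Real.sinh x := by
  unfold shc
  have h := sub_smul_dslope Real.sinh 0 x
  rw [sub_zero, Real.sinh_zero, sub_zero, smul_eq_mul] at h
  exact h

theorem shc_smooth : ContDiff ℝ ∞ shc := by
  rw [contDiff_iff_contDiffAt]
  intro x
  rcases eq_or_ne x 0 with rfl | hx
  · have h1 : AnalyticAt ℝ Real.sinh 0 := Real.contDiff_sinh.contDiffAt.analyticAt
    obtain ⟨p, hp⟩ := h1
    have h2 := hp.has_fpower_series_dslope_fslope
    exact (h2.analyticAt).contDiffAt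
  · have h1 : ContDiffAt ℝ ∞ (fun x => Real.sinh x / x) x :=
      Real.contDiff_sinh.contDiffAt.div contDiffAt_id hx
    refine h1.congr_of_eventuallyEq ?_
    filter_upwards [isOpen_ne.mem_nhds hx] with y hy
    rw [eq_div_iff hy, mul_comm]
    exact mul_shc y

theorem e_det (ε t : ℝ) : Matrix.det !![Real.cosh (ε * t), t * shc (ε * t);
    ε * Real.sinh (ε * t), Real.cosh (ε * t)] = 1 := by
  rw [Matrix.det_fin_two_of]
  have h1 := mul_shc (ε * t)
  have h2 := Real.cosh_sq (ε * t)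
  have h3 : t * shc (ε * t) * (ε * Real.sinh (ε * t)) = Real.sinh (ε * t) ^ 2 := by
    rw [pow_two]
    nth_rewrite 2 [← h1]
    ring
  rw [h3, ← pow_two, h2]
  ring

/-- the one-parameter subgroup of `SL(2, ℝ)` generated by the matrix with the entries `0, 1, ε², 0` -/
noncomputable def e (ε t : ℝ) : SL2 :=
  ⟨!![Real.cosh (ε * t), t * shc (ε * t); ε * Real.sinh (ε * t), Real.cosh (ε * t)], e_det ε t⟩

/-- the horocycle flow -/
noncomputable def hor (t : ℝ) : SL2 := ⟨!![1, t; 0, 1], by simp⟩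

theorem e_zero_eps (t : ℝ) : e 0 t = hor t := by
  apply Subtype.ext
  show !![Real.cosh (0 * t), t * shc (0 * t); 0 * Real.sinh (0 * t), Real.cosh (0 * t)] = !![1, t; 0, 1]
  rw [zero_mul, Real.cosh_zero, shc_zero, mul_one, zero_mul]

theorem e_zero (ε : ℝ) : e ε 0 = 1 := by
  apply Subtype.ext
  show !![Real.cosh (ε * 0), 0 * shc (ε * 0); ε * Real.sinh (ε * 0), Real.cosh (ε * 0)] = 1
  rw [mul_zero, Real.cosh_zero, zero_mul, Real.sinh_zero, mul_zero]
  exact Matrix.one_fin_two.symm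

theorem e_add (ε s t : ℝ) : e ε (s + t) = e ε s * e ε t := by
  apply Subtype.ext
  show !![Real.cosh (ε * (s + t)), (s + t) * shc (ε * (s + t)); ε * Real.sinh (ε * (s + t)),
      Real.cosh (ε * (s + t))] =
    !![Real.cosh (ε * s), s * shc (ε * s); ε * Real.sinh (ε * s), Real.cosh (ε * s)] *
    !![Real.cosh (ε * t), t * shc (ε * t); ε * Real.sinh (ε * t), Real.cosh (ε * t)]
  rw [Matrix.mul_fin_two]
  have a1 := mul_shc (ε * s)
  have a2 := mul_shc (ε * t)
  have a3 := mul_shc (ε * (s + t))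
  have b1 : Real.cosh (ε * (s + t)) = Real.cosh (ε * s) * Real.cosh (ε * t) +
      Real.sinh (ε * s) * Real.sinh (ε * t) := by rw [mul_add, Real.cosh_add]
  have b2 : Real.sinh (ε * (s + t)) = Real.sinh (ε * s) * Real.cosh (ε * t) +
      Real.cosh (ε * s) * Real.sinh (ε * t) := by rw [mul_add, Real.sinh_add]
  have c1 : (s + t) * shc (ε * (s + t)) = Real.cosh (ε * s) * (t * shc (ε * t)) +
      s * shc (ε * s) * Real.cosh (ε * t) := by
    rcases eq_or_ne ε 0 with rfl | hε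
    · simp only [zero_mul, shc_zero, Real.cosh_zero]
      ring
    · apply mul_left_cancel₀ hε
      have d1 : ε * ((s + t) * shc (ε * (s + t))) = Real.sinh (ε * (s + t)) := by
        rw [← a3]; ring
      have d2 : ε * (Real.cosh (ε * s) * (t * shc (ε * t)) +
          s * shc (ε * s) * Real.cosh (ε * t)) = Real.cosh (ε * s) * Real.sinh (ε * t) +
          Real.sinh (ε * s) * Real.cosh (ε * t) := by
        rw [← a1, ← a2]; ring
      rw [d1, d2, b2]
      ring
  ext i j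
  fin_cases i <;> fin_cases j
  · show Real.cosh (ε * (s + t)) = Real.cosh (ε * s) * Real.cosh (ε * t) +
      s * shc (ε * s) * (ε * Real.sinh (ε * t))
    rw [b1, ← a1]
    ring
  · show (s + t) * shc (ε * (s + t)) = Real.cosh (ε * s) * (t * shc (ε * t)) +
      s * shc (ε * s) * Real.cosh (ε * t)
    exact c1
  · show ε * Real.sinh (ε * (s + t)) = ε * Real.sinh (ε * s) * Real.cosh (ε * t) +
      Real.cosh (ε * s) * (ε * Real.sinh (ε * t))
    rw [b2]
    ring
  · show Real.cosh (ε * (s + t)) = ε * Real.sinh (ε * s) * (t * shc (ε * t)) +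
      Real.cosh (ε * s) * Real.cosh (ε * t)
    rw [b1, ← a2]
    ring

theorem hor_add (s t : ℝ) : hor (s + t) = hor s * hor t := by
  rw [← e_zero_eps, ← e_zero_eps, ← e_zero_eps, e_add]

theorem hor_zero : hor 0 = 1 := by rw [← e_zero_eps, e_zero]

theorem e_smooth (i j : Fin 2) : ContDiff ℝ ∞ (fun p : ℝ × ℝ => (e p.1 p.2).1 i j) := by
  have h1 : ContDiff ℝ ∞ (fun p : ℝ × ℝ => Real.cosh (p.1 * p.2)) :=
    Real.contDiff_cosh.comp (contDiff_fst.mul contDiff_snd)
  have h2 : ContDiff ℝ ∞ (fun p : ℝ × ℝ => p.2 * shc (p.1 * p.2)) :=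
    contDiff_snd.mul (shc_smooth.comp (contDiff_fst.mul contDiff_snd))
  have h3 : ContDiff ℝ ∞ (fun p : ℝ × ℝ => p.1 * Real.sinh (p.1 * p.2)) :=
    contDiff_fst.mul (Real.contDiff_sinh.comp (contDiff_fst.mul contDiff_snd))
  fin_cases i <;> fin_cases j
  · exact h1
  · exact h2
  · exact h3
  · exact h1

section act

variable {n : ℕ} {N : Type u} [TopologicalSpace N] [ChartedSpace (V n) N] {ρ : SL2 → N → N}

theorem pair_smooth : ContDiff ℝ ∞ (fun v : V 2 => ((v 0, v 1) : ℝ × ℝ)) :=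
  (contDiff_piLp_apply (p := 2) (i := (0 : Fin 2))).prodMk
    (contDiff_piLp_apply (p := 2) (i := (1 : Fin 2)))

theorem pair_smooth' : ContDiff ℝ ∞ (fun p : ℝ × ℝ => (!₂[p.1, p.2] : V 2)) := by
  rw [contDiff_piLp]
  intro i
  fin_cases i
  · exact contDiff_fst
  · exact contDiff_snd

theorem e_smooth2 (i j : Fin 2) : ContDiff ℝ ∞ (fun v : V 2 => (e (v 0) (v 1)).1 i j) :=
  ContDiff.comp (g := fun p : ℝ × ℝ => (e p.1 p.2).1 i j) (f := fun v : V 2 => ((v 0, v 1) : ℝ × ℝ))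
    (e_smooth i j) pair_smooth

/-- the family of flows -/
theorem act_smooth (hρ : IsSLAction n N univ ρ) :
    ContMDiff (𝓘(ℝ, ℝ × ℝ).prod (𝓡 n)) (𝓡 n) ∞
      (fun q : (ℝ × ℝ) × N => ρ (e q.1.1 q.1.2) q.2) := by
  have h1 := hρ.smooth 2 (fun v => e (v 0) (v 1)) e_smooth2
  rw [univ_prod_univ, contMDiffOn_univ] at h1
  have h3 : ContMDiff (𝓘(ℝ, ℝ × ℝ).prod (𝓡 n)) ((𝓡 2).prod (𝓡 n)) ∞
      (fun q : (ℝ × ℝ) × N => ((!₂[q.1.1, q.1.2] : V 2), q.2)) := by
    refine ContMDiff.prodMk ?_ contMDiff_snd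
    exact ContMDiff.comp (g := fun p : ℝ × ℝ => (!₂[p.1, p.2] : V 2))
      (f := fun q : (ℝ × ℝ) × N => q.1) pair_smooth'.contMDiff contMDiff_fst
  exact ContMDiff.comp (g := fun p : V 2 × N => ρ (e (p.1 0) (p.1 1)) p.2)
    (f := fun q : (ℝ × ℝ) × N => ((!₂[q.1.1, q.1.2] : V 2), q.2)) h1 h3

end act

end Pool.Agent.KS6_36.LH
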