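import Pool.Graph.R_seed8.W564.SC.Defs

/-!
# Smooth families of maps of a compact manifold through a diffeomorphism

If `H : P × N → N` is jointly `C^r`, `r ≥ 1`, `N` compact and `H 0` is a diffeomorphism, then all `H s`
with small `s` are diffeomorphisms.
-/

set_option autoImplicit false
set_option linter.unusedSectionVars false

open scoped Manifold ContDiff Topology NNReal
open Filter Set Metric

universe u

namespace Pool.Agent.KS6_36.LH

open Pool.Agent.H718R2.G Pool.Agent.W564.SC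

section loc

variable {n : ℕ} {N : Type u} [TopologicalSpace N] [ChartedSpace (V n) N] [IsManifold (𝓡 n) ∞ N]
  {P : Type} [NormedAddCommGroup P] [NormedSpace ℝ P] {r : ℕ∞} {K : P → N → N}
  (hK : ContMDiff (𝓘(ℝ, P).prod (𝓡 n)) (𝓡 n) r (fun q : P × N => K q.1 q.2))

include hK in
theorem loc_smooth {y₀ : N} {s : P} {x : V n} (hx : x ∈ (chartAt (V n) y₀).target)
    (hs : K s ((chartAt (V n) y₀).symm x) ∈ (chartAt (V n) y₀).source) :
    ContDiffAt ℝ r (fun q : P × V n => chartAt (V n) y₀ (K q.1 ((chartAt (V n) y₀).symm q.2)))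
      (s, x) := by
  have hr : (r : WithTop ℕ∞) ≤ ∞ := by exact_mod_cast le_top
  rw [← contMDiffAt_iff_contDiffAt]
  have h1 : ContMDiffAt 𝓘(ℝ, P × V n) 𝓘(ℝ, P) r (fun q : P × V n => q.1)
      (s, x) := contDiffAt_fst.contMDiffAt
  have h2 : ContMDiffAt 𝓘(ℝ, P × V n) (𝓡 n) r (fun q : P × V n => q.2)
      (s, x) := contDiffAt_snd.contMDiffAt
  have h3 : ContMDiffAt (𝓡 n) (𝓡 n) r (chartAt (V n) y₀).symm x := by
    have h4 : ContMDiffOn (𝓡 n) (𝓡 n) ∞ (chartAt (V n) y₀).symm (chartAt (V n) y₀).target :=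
      contMDiffOn_symm_of_mem_maximalAtlas (IsManifold.chart_mem_maximalAtlas y₀)
    exact (h4.contMDiffAt ((chartAt (V n) y₀).open_target.mem_nhds hx)).of_le hr
  have h5 : ContMDiffAt 𝓘(ℝ, P × V n) (𝓡 n) r
      (fun q : P × V n => (chartAt (V n) y₀).symm q.2) (s, x) :=
    ContMDiffAt.comp (g := (chartAt (V n) y₀).symm) (f := fun q : P × V n => q.2) _ h3 h2
  have h6 : ContMDiffAt 𝓘(ℝ, P × V n) (𝓘(ℝ, P).prod (𝓡 n)) r
      (fun q : P × V n => (q.1, (chartAt (V n) y₀).symm q.2)) (s, x) := h1.prodMk h5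
  have h7 : ContMDiffAt 𝓘(ℝ, P × V n) (𝓡 n) r
      (fun q : P × V n => K q.1 ((chartAt (V n) y₀).symm q.2)) (s, x) :=
    ContMDiffAt.comp (g := fun q : P × N => K q.1 q.2)
      (f := fun q : P × V n => (q.1, (chartAt (V n) y₀).symm q.2)) _ hK.contMDiffAt h6
  have h8 : ContMDiffAt (𝓡 n) (𝓡 n) r (chartAt (V n) y₀)
      (K s ((chartAt (V n) y₀).symm x)) := by
    have h4 : ContMDiffOn (𝓡 n) (𝓡 n) ∞ (chartAt (V n) y₀) (chartAt (V n) y₀).source :=
      contMDiffOn_of_mem_maximalAtlas (IsManifold.chart_mem_maximalAtlas y₀)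
    exact (h4.contMDiffAt ((chartAt (V n) y₀).open_source.mem_nhds hs)).of_le hr
  exact ContMDiffAt.comp (g := chartAt (V n) y₀)
    (f := fun q : P × V n => K q.1 ((chartAt (V n) y₀).symm q.2)) _ h8 h7

include hK in
/-- the local estimate -/
theorem loc_est (hr : 1 ≤ r) (h0 : ∀ y, K 0 y = y) (y₀ : N) :
    ∃ κ δ : ℝ, 0 < κ ∧ 0 < δ ∧ ball (chartAt (V n) y₀ y₀) δ ⊆ (chartAt (V n) y₀).target ∧
      (∀ s : P, ‖s‖ < κ → ∀ x ∈ ball (chartAt (V n) y₀ y₀) δ,
        K s ((chartAt (V n) y₀).symm x) ∈ (chartAt (V n) y₀).source) ∧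
      (∀ s : P, ‖s‖ < κ → ∀ x ∈ ball (chartAt (V n) y₀ y₀) δ, ∀ x' ∈ ball (chartAt (V n) y₀ y₀) δ,
        ‖chartAt (V n) y₀ (K s ((chartAt (V n) y₀).symm x)) -
          chartAt (V n) y₀ (K s ((chartAt (V n) y₀).symm x')) - (x - x')‖ ≤ 1 / 2 * ‖x - x'‖) ∧
      ∀ s : P, ‖s‖ < κ →
        ‖chartAt (V n) y₀ (K s ((chartAt (V n) y₀).symm (chartAt (V n) y₀ y₀))) -
          chartAt (V n) y₀ y₀‖ < δ / 16 := by
  obtain ⟨φ, hφ⟩ : ∃ φ, φ = chartAt (V n) y₀ := ⟨_, rfl⟩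
  obtain ⟨x₀, hx₀⟩ : ∃ x₀, x₀ = φ y₀ := ⟨_, rfl⟩
  have hy₀s : y₀ ∈ φ.source := by rw [hφ]; exact mem_chart_source _ y₀
  have hx₀t : x₀ ∈ φ.target := by rw [hx₀]; exact φ.map_source hy₀s
  have hsx₀ : φ.symm x₀ = y₀ := by rw [hx₀]; exact φ.left_inv hy₀s
  obtain ⟨k, hk⟩ : ∃ k : P × V n → V n, k = fun q => φ (K q.1 (φ.symm q.2)) := ⟨_, rfl⟩
  have hkd : ContDiffAt ℝ r k (0, x₀) := by
    rw [hk, hφ]
    apply loc_smooth hK
    · rw [← hφ]; exact hx₀t
    · rw [h0, ← hφ, hsx₀]; exact hy₀s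
  have hr1 : (1 : WithTop ℕ∞) ≤ (r : WithTop ℕ∞) := by exact_mod_cast hr
  have hstr : HasStrictFDerivAt k (fderiv ℝ k (0, x₀)) (0, x₀) :=
    hkd.hasStrictFDerivAt (by
      intro h
      rw [h] at hr1
      exact absurd hr1 (by norm_num))
  obtain ⟨L, hL⟩ : ∃ L, L = fderiv ℝ k (0, x₀) := ⟨_, rfl⟩
  rw [← hL] at hstr
  -- the derivative in the direction of `V n` is the identity
  have hLid : ∀ v : V n, L (0, v) = v := by
    intro v
    have h1 : HasFDerivAt (fun x : V n => k (0, x)) (L.comp (ContinuousLinearMap.inr ℝ P (V n))) x₀ := by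
      have h2 : HasFDerivAt (fun x : V n => ((0 : P), x)) (ContinuousLinearMap.inr ℝ P (V n)) x₀ :=
        hasFDerivAt_prodMk_right 0 x₀
      exact HasFDerivAt.comp x₀ (g := k) (f := fun x : V n => ((0 : P), x)) hstr.hasFDerivAt h2
    have h3 : (fun x : V n => k (0, x)) =ᶠ[𝓝 x₀] id := by
      filter_upwards [φ.open_target.mem_nhds hx₀t] with x hx
      show k (0, x) = x
      rw [hk]
      show φ (K 0 (φ.symm x)) = x
      rw [h0]
      exact φ.right_inv hx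
    have h4 : HasFDerivAt (fun x : V n => k (0, x)) (ContinuousLinearMap.id ℝ (V n)) x₀ :=
      (hasFDerivAt_id x₀).congr_of_eventuallyEq h3
    have h5 := h1.unique h4
    have h6 := DFunLike.congr_fun h5 v
    simpa using h6
  have hev := hstr.isLittleO.def (show (0 : ℝ) < 1 / 2 by norm_num)
  -- neighbourhoods
  have hcK : Continuous (fun q : P × N => K q.1 q.2) := hK.continuous
  have hφc : ContinuousAt φ.symm x₀ := φ.symm.continuousAt hx₀t
  have hK0 : ContinuousAt (fun q : P × V n => K q.1 (φ.symm q.2)) (0, x₀) := by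
    have h1 : ContinuousAt (fun q : P × V n => (q.1, φ.symm q.2)) (0, x₀) := by
      refine continuousAt_fst.prodMk ?_
      exact ContinuousAt.comp (g := φ.symm) (f := fun q : P × V n => q.2) hφc continuousAt_snd
    exact ContinuousAt.comp (g := fun q : P × N => K q.1 q.2)
      (f := fun q : P × V n => (q.1, φ.symm q.2)) hcK.continuousAt h1
  have hsrc : ∀ᶠ q : P × V n in 𝓝 (0, x₀), K q.1 (φ.symm q.2) ∈ φ.source := by
    have h1 : K (0 : P) (φ.symm x₀) ∈ φ.source := by rw [h0, hsx₀]; exact hy₀s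
    exact hK0.eventually (φ.open_source.mem_nhds h1)
  have htgt : ∀ᶠ q : P × V n in 𝓝 (0, x₀), q.2 ∈ φ.target :=
    (continuousAt_snd (p := ((0 : P), x₀))).eventually (φ.open_target.mem_nhds hx₀t)
  rw [nhds_prod_eq] at hev
  obtain ⟨A, hA, hAA⟩ := Filter.mem_prod_same_iff.1 hev
  obtain ⟨ε, hε, hεb⟩ := Metric.mem_nhds_iff.1 (inter_mem hA (inter_mem hsrc htgt))
  have hk0 : ContinuousAt k (0, x₀) := hkd.continuousAt
  have hkx₀ : k (0, x₀) = x₀ := by
    rw [hk]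
    show φ (K 0 (φ.symm x₀)) = x₀
    rw [h0, hsx₀, ← hx₀]
  have hsm : ∀ᶠ s : P in 𝓝 0, ‖k (s, x₀) - x₀‖ < ε / 16 := by
    have h1 : ContinuousAt (fun s : P => ‖k (s, x₀) - x₀‖) 0 := by
      have h2 : ContinuousAt (fun s : P => k (s, x₀)) 0 :=
        ContinuousAt.comp (g := k) (f := fun s : P => (s, x₀)) hk0
          (continuousAt_id.prodMk continuousAt_const)
      exact (h2.sub continuousAt_const).norm
    have h3 := h1.tendsto
    have h4 : ‖k ((0 : P), x₀) - x₀‖ = 0 := by rw [hkx₀, sub_self, norm_zero]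
    rw [h4] at h3
    exact h3.eventually (gt_mem_nhds (by positivity))
  obtain ⟨κ', hκ', hκb⟩ := Metric.eventually_nhds_iff.1 hsm
  have hmem : ∀ s : P, ‖s‖ < min ε κ' → ∀ x ∈ ball x₀ ε, ((s, x) : P × V n) ∈ ball ((0 : P), x₀) ε := by
    intro s hs x hx
    rw [mem_ball, Prod.dist_eq]
    refine max_lt ?_ hx
    rw [dist_zero_right]
    exact hs.trans_le (min_le_left _ _)
  refine ⟨min ε κ', ε, lt_min hε hκ', hε, ?_, ?_, ?_, ?_⟩
  · intro x hx
    rw [← hφ]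
    rw [← hφ, ← hx₀] at hx
    have h1 := hεb (hmem 0 (by rw [norm_zero]; exact lt_min hε hκ') x hx)
    exact h1.2.2
  · intro s hs x hx
    rw [← hφ]
    rw [← hφ, ← hx₀] at hx
    exact (hεb (hmem s hs x hx)).2.1
  · intro s hs x hx x' hx'
    rw [← hφ]
    rw [← hφ, ← hx₀] at hx hx'
    have h1 := (hεb (hmem s hs x hx)).1
    have h2 := (hεb (hmem s hs x' hx')).1
    have h3 : ((s, x), (s, x')) ∈ {p : (P × V n) × (P × V n) |
        ‖k p.1 - k p.2 - L (p.1 - p.2)‖ ≤ 1 / 2 * ‖p.1 - p.2‖} := hAA (mk_mem_prod h1 h2)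
    have h4 : ‖k (s, x) - k (s, x') - L ((s, x) - (s, x'))‖ ≤ 1 / 2 * ‖((s, x) : P × V n) - (s, x')‖ := h3
    have h5 : ((s, x) : P × V n) - (s, x') = (0, x - x') := by
      rw [Prod.mk_sub_mk, sub_self]
    rw [h5, hLid] at h4
    have h6 : ‖((0 : P), x - x')‖ = ‖x - x'‖ := by
      rw [Prod.norm_mk, norm_zero]
      exact max_eq_right (norm_nonneg _)
    rw [h6, hk] at h4
    exact h4
  · intro s hs
    rw [← hφ, ← hx₀]
    have h1 := hκb (y := s) (by
      rw [dist_zero_right]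
      exact hs.trans_le (min_le_right _ _))
    rw [hk] at h1
    exact h1

include hK in
/-- the local diffeomorphism -/
theorem loc_diffeo (hr : 1 ≤ r) (h0 : ∀ y, K 0 y = y) (y₀ : N) :
    ∃ (κ : ℝ) (O O' : Set N), 0 < κ ∧ O ∈ 𝓝 y₀ ∧ O' ∈ 𝓝 y₀ ∧ ∀ s : P, ‖s‖ < κ →
      InjOn (K s) O ∧ O' ⊆ K s '' O ∧ ∀ y ∈ O, IsLocalDiffeomorphAt (𝓡 n) (𝓡 n) r (K s) y := by
  obtain ⟨κ, δ, hκ, hδ, hb, hsrc, hest, hctr⟩ := loc_est hK hr h0 y₀
  obtain ⟨φ, hφ⟩ : ∃ φ, φ = chartAt (V n) y₀ := ⟨_, rfl⟩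
  rw [← hφ] at hb hsrc hest hctr
  obtain ⟨x₀, hx₀⟩ : ∃ x₀, x₀ = φ y₀ := ⟨_, rfl⟩
  rw [← hx₀] at hb hsrc hest hctr
  have hy₀s : y₀ ∈ φ.source := by rw [hφ]; exact mem_chart_source _ y₀
  have hx₀t : x₀ ∈ φ.target := by rw [hx₀]; exact φ.map_source hy₀s
  have hsx₀ : φ.symm x₀ = y₀ := by rw [hx₀]; exact φ.left_inv hy₀s
  have hnhds : ∀ ρ : ℝ, 0 < ρ → φ.source ∩ φ ⁻¹' (ball x₀ ρ) ∈ 𝓝 y₀ := by
    intro ρ hρ
    refine inter_mem (φ.open_source.mem_nhds hy₀s) ?_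
    apply (φ.continuousAt hy₀s).preimage_mem_nhds
    rw [← hx₀]
    exact ball_mem_nhds _ hρ
  refine ⟨κ, φ.source ∩ φ ⁻¹' (ball x₀ δ), φ.source ∩ φ ⁻¹' (ball x₀ (δ / 16)), hκ, hnhds δ hδ,
    hnhds _ (by positivity), fun s hs => ?_⟩
  -- the map in the chart
  obtain ⟨k, hk⟩ : ∃ k : V n → V n, k = fun x => φ (K s (φ.symm x)) := ⟨_, rfl⟩
  have happ : ApproximatesLinearOn k
      ((ContinuousLinearEquiv.refl ℝ (V n) : V n ≃L[ℝ] V n) : V n →L[ℝ] V n) (ball x₀ δ)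
      (1 / 2 : ℝ≥0) := by
    intro x hx x' hx'
    have h1 := hest s hs x hx x' hx'
    rw [hk]
    simpa using h1
  have hc : Subsingleton (V n) ∨ (1 / 2 : ℝ≥0) <
      ‖((ContinuousLinearEquiv.refl ℝ (V n) : V n ≃L[ℝ] V n).symm : V n →L[ℝ] V n)‖₊⁻¹ := by
    rcases subsingleton_or_nontrivial (V n) with h | h
    · exact Or.inl h
    · right
      have h1 : ‖((ContinuousLinearEquiv.refl ℝ (V n) : V n ≃L[ℝ] V n).symm : V n →L[ℝ] V n)‖₊ = 1 := by
        have : ((ContinuousLinearEquiv.refl ℝ (V n) : V n ≃L[ℝ] V n).symm : V n →L[ℝ] V n) =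
            ContinuousLinearMap.id ℝ (V n) := rfl
        rw [this, ← NNReal.coe_inj, coe_nnnorm, ContinuousLinearMap.norm_id]
        rfl
      rw [h1, inv_one]
      rw [← NNReal.coe_lt_coe]
      norm_num
  obtain ⟨e, he⟩ : ∃ e, e = happ.toOpenPartialHomeomorph k (ball x₀ δ) hc isOpen_ball := ⟨_, rfl⟩
  have heS : e.source = ball x₀ δ := by rw [he]; rfl
  have hek : ∀ x, e x = k x := by intro x; rw [he]; rfl
  have hkmem : ∀ x ∈ ball x₀ δ, k x ∈ φ.target := by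
    intro x hx
    rw [hk]
    exact φ.map_source (hsrc s hs x hx)
  have hKe : ∀ y ∈ φ.source ∩ φ ⁻¹' (ball x₀ δ), K s y = φ.symm (k (φ y)) := by
    rintro y ⟨hy1, hy2⟩
    rw [hk]
    show K s y = φ.symm (φ (K s (φ.symm (φ y))))
    rw [φ.left_inv hy1, φ.left_inv]
    have := hsrc s hs (φ y) hy2
    rwa [φ.left_inv hy1] at this
  refine ⟨?_, ?_, ?_⟩
  · intro y hy y' hy' hyy
    have h1 : k (φ y) = k (φ y') := by
      have h2 := hKe y hy
      have h3 := hKe y' hy'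
      rw [h2, h3] at hyy
      exact φ.symm.injOn (hkmem _ hy.2) (hkmem _ hy'.2) hyy
    have h4 : φ y = φ y' := by
      apply e.injOn
      · rw [heS]; exact hy.2
      · rw [heS]; exact hy'.2
      · rw [hek, hek, h1]
    exact φ.injOn hy.1 hy'.1 h4
  · rintro w ⟨hw1, hw2⟩
    -- surjectivity on a small ball
    have hsurj : SurjOn k (closedBall x₀ (δ / 2)) (closedBall (k x₀) (δ / 8)) := by
      rcases subsingleton_or_nontrivial (V n) with h | h
      · intro z _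
        exact ⟨x₀, mem_closedBall_self (by positivity), Subsingleton.elim _ _⟩
      have h1 := happ.surjOn_closedBall_of_nonlinearRightInverse
        ((ContinuousLinearEquiv.refl ℝ (V n) : V n ≃L[ℝ] V n).toNonlinearRightInverse)
        (ε := δ / 2) (b := x₀) (by positivity) (closedBall_subset_ball (by linarith))
      refine h1.mono Subset.rfl ?_
      apply closedBall_subset_closedBall
      have h3 : ((ContinuousLinearEquiv.refl ℝ (V n) : V n ≃L[ℝ] V n).toNonlinearRightInverse).nnnorm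
          = ‖((ContinuousLinearEquiv.refl ℝ (V n) : V n ≃L[ℝ] V n).symm : V n →L[ℝ] V n)‖₊ := rfl
      have h1 : ‖((ContinuousLinearEquiv.refl ℝ (V n) : V n ≃L[ℝ] V n).symm : V n →L[ℝ] V n)‖₊ = 1 := by
        have : ((ContinuousLinearEquiv.refl ℝ (V n) : V n ≃L[ℝ] V n).symm : V n →L[ℝ] V n) =
            ContinuousLinearMap.id ℝ (V n) := rfl
        rw [this, ← NNReal.coe_inj, coe_nnnorm, ContinuousLinearMap.norm_id]
        rfl
      rw [h3, h1]
      norm_num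
      linarith
    have hw3 : φ w ∈ closedBall (k x₀) (δ / 8) := by
      rw [mem_closedBall]
      have h1 : dist (φ w) x₀ < δ / 16 := hw2
      have h2 : dist x₀ (k x₀) < δ / 16 := by
        rw [dist_comm, dist_eq_norm, hk]
        exact hctr s hs
      calc dist (φ w) (k x₀) ≤ dist (φ w) x₀ + dist x₀ (k x₀) := dist_triangle _ _ _
        _ ≤ δ / 8 := by linarith
    obtain ⟨x, hx1, hx2⟩ := hsurj hw3
    have hx3 : x ∈ ball x₀ δ := closedBall_subset_ball (by linarith) hx1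
    refine ⟨φ.symm x, ⟨φ.map_target (hb hx3), ?_⟩, ?_⟩
    · show φ (φ.symm x) ∈ ball x₀ δ
      rw [φ.right_inv (hb hx3)]
      exact hx3
    · rw [hKe (φ.symm x) ⟨φ.map_target (hb hx3), by
        show φ (φ.symm x) ∈ ball x₀ δ
        rw [φ.right_inv (hb hx3)]
        exact hx3⟩, φ.right_inv (hb hx3), hx2, φ.left_inv hw1]
  · intro y hy
    have hr' : (r : WithTop ℕ∞) ≤ ∞ := by exact_mod_cast le_top
    have hr1 : (1 : WithTop ℕ∞) ≤ (r : WithTop ℕ∞) := by exact_mod_cast hr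
    have hkd : ∀ x ∈ ball x₀ δ, ContDiffAt ℝ r k x := by
      intro x hx
      have h1 : ContDiffAt ℝ r (fun q : P × V n => φ (K q.1 (φ.symm q.2))) (s, x) := by
        rw [hφ]
        apply loc_smooth hK
        · rw [← hφ]; exact hb hx
        · rw [← hφ]; exact hsrc s hs x hx
      rw [hk]
      exact ContDiffAt.comp (g := fun q : P × V n => φ (K q.1 (φ.symm q.2)))
        (f := fun x : V n => (s, x)) x h1 (contDiffAt_const.prodMk contDiffAt_id)
    have hD : ∀ x ∈ ball x₀ δ, ∃ D : V n ≃L[ℝ] V n, HasFDerivAt k (D : V n →L[ℝ] V n) x := by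
      intro x hx
      have h1 : HasFDerivAt k (fderiv ℝ k x) x :=
        ((hkd x hx).differentiableAt (by
          intro h
          rw [h] at hr1
          exact absurd hr1 (by norm_num))).hasFDerivAt
      have h2 : HasFDerivAt (fun z => k z - z) (fderiv ℝ k x - ContinuousLinearMap.id ℝ (V n)) x :=
        h1.sub (hasFDerivAt_id x)
      have h3 : ‖fderiv ℝ k x - ContinuousLinearMap.id ℝ (V n)‖ ≤ 1 / 2 := by
        apply h2.le_of_lip' (by norm_num)
        filter_upwards [isOpen_ball.mem_nhds hx] with z hz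
        have h4 := hest s hs z hz x hx
        rw [hk]
        have e1 : φ (K s (φ.symm z)) - z - (φ (K s (φ.symm x)) - x) =
            φ (K s (φ.symm z)) - φ (K s (φ.symm x)) - (z - x) := by abel
        show ‖φ (K s (φ.symm z)) - z - (φ (K s (φ.symm x)) - x)‖ ≤ 1 / 2 * ‖z - x‖
        rw [e1]
        exact h4
      have h5 : ‖ContinuousLinearMap.id ℝ (V n) - fderiv ℝ k x‖ < 1 := by
        rw [norm_sub_rev]
        linarith
      obtain ⟨U, hU⟩ : ∃ U : (V n →L[ℝ] V n)ˣ, (U : V n →L[ℝ] V n) = fderiv ℝ k x := by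
        refine ⟨Units.oneSub (ContinuousLinearMap.id ℝ (V n) - fderiv ℝ k x) h5, ?_⟩
        show (1 : V n →L[ℝ] V n) - (ContinuousLinearMap.id ℝ (V n) - fderiv ℝ k x) = _
        have : (1 : V n →L[ℝ] V n) = ContinuousLinearMap.id ℝ (V n) := rfl
        rw [this]
        abel
      refine ⟨ContinuousLinearEquiv.unitsEquiv ℝ (V n) U, ?_⟩
      have h6 : ((ContinuousLinearEquiv.unitsEquiv ℝ (V n) U : V n ≃L[ℝ] V n) : V n →L[ℝ] V n) =
          fderiv ℝ k x := by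
        rw [← hU]
        rfl
      rw [h6]
      exact h1
    have hφs : ContMDiffOn (𝓡 n) (𝓡 n) r φ φ.source := by
      rw [hφ]
      exact (contMDiffOn_of_mem_maximalAtlas (IsManifold.chart_mem_maximalAtlas y₀)).of_le hr'
    have hφs' : ContMDiffOn (𝓡 n) (𝓡 n) r φ.symm φ.target := by
      rw [hφ]
      exact (contMDiffOn_symm_of_mem_maximalAtlas (IsManifold.chart_mem_maximalAtlas y₀)).of_le hr'
    have hes : ContMDiffOn (𝓡 n) (𝓡 n) r e e.source := by
      rw [heS]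
      intro x hx
      have h1 : ContDiffAt ℝ r e x := by
        refine (hkd x hx).congr_of_eventuallyEq (Eventually.of_forall hek)
      exact h1.contMDiffAt.contMDiffWithinAt
    have hes' : ContMDiffOn (𝓡 n) (𝓡 n) r e.symm e.target := by
      intro x hx
      have hx1 : e.symm x ∈ ball x₀ δ := by
        rw [← heS]
        exact e.map_target hx
      obtain ⟨D, hD1⟩ := hD _ hx1
      have h1 : ContDiffAt ℝ r e.symm x := by
        refine e.contDiffAt_symm (f₀' := D) hx ?_ ?_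
        · exact hD1.congr_of_eventuallyEq (Eventually.of_forall hek)
        · exact (hkd _ hx1).congr_of_eventuallyEq (Eventually.of_forall hek)
      exact h1.contMDiffAt.contMDiffWithinAt
    refine ⟨{ toPartialEquiv := (φ.trans (e.trans φ.symm)).toPartialEquiv
              open_source := (φ.trans (e.trans φ.symm)).open_source
              open_target := (φ.trans (e.trans φ.symm)).open_target
              contMDiffOn_toFun := ?_
              contMDiffOn_invFun := ?_ }, ?_, ?_⟩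
    · have h1 : ContMDiffOn (𝓡 n) (𝓡 n) r (φ.symm ∘ e) (e.trans φ.symm).source :=
        hφs'.comp (hes.mono inter_subset_left) inter_subset_right
      exact h1.comp (hφs.mono inter_subset_left) inter_subset_right
    · have h1 : ContMDiffOn (𝓡 n) (𝓡 n) r (e.symm ∘ φ) (φ.source ∩ φ ⁻¹' e.target) :=
        hes'.comp (hφs.mono inter_subset_left) inter_subset_right
      have h2 : ContMDiffOn (𝓡 n) (𝓡 n) r (φ.symm ∘ (e.symm ∘ φ))
          ((φ.source ∩ φ ⁻¹' e.target) ∩ (e.symm ∘ φ) ⁻¹' φ.target) :=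
        hφs'.comp (h1.mono inter_subset_left) inter_subset_right
      refine h2.mono ?_
      rintro z ⟨⟨hz1, hz2⟩, hz3⟩
      exact ⟨⟨hz1, hz2⟩, hz3⟩
    · refine ⟨hy.1, ?_, ?_⟩
      · show φ y ∈ e.source
        rw [heS]
        exact hy.2
      · show e (φ y) ∈ φ.target
        rw [hek]
        exact hkmem _ hy.2
    · rintro z ⟨hz1, hz2, hz3⟩
      have hz4 : φ z ∈ ball x₀ δ := by
        rw [← heS]
        exact hz2
      rw [hKe z ⟨hz1, hz4⟩]
      show _ = φ.symm (e (φ z))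
      rw [hek]

end loc

section glob

variable {n : ℕ} {N : Type u} [TopologicalSpace N] [T2Space N] [CompactSpace N]
  [ChartedSpace (V n) N] [IsManifold (𝓡 n) ∞ N]
  {P : Type} [NormedAddCommGroup P] [NormedSpace ℝ P] {r : ℕ∞}

theorem fam_inj {K : P → N → N}
    (hK : ContMDiff (𝓘(ℝ, P).prod (𝓡 n)) (𝓡 n) r (fun q : P × N => K q.1 q.2)) (hr : 1 ≤ r)
    (h0 : ∀ y, K 0 y = y) : ∃ κ : ℝ, 0 < κ ∧ ∀ s : P, ‖s‖ < κ → Function.Injective (K s) := by
  have hcK : Continuous (fun q : P × N => K q.1 q.2) := hK.continuous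
  have key : ∃ κ : ℝ, 0 < κ ∧ ∀ s : P, ‖s‖ < κ → ∀ q ∈ (univ : Set (N × N)), K s q.1 = K s q.2 →
      q.1 = q.2 := by
    refine isCompact_univ.induction_on (p := fun A : Set (N × N) => ∃ κ : ℝ, 0 < κ ∧
      ∀ s : P, ‖s‖ < κ → ∀ q ∈ A, K s q.1 = K s q.2 → q.1 = q.2) ?_ ?_ ?_ ?_
    · exact ⟨1, one_pos, fun s _ q hq => absurd hq (notMem_empty q)⟩
    · rintro A B hAB ⟨κ, hκ, h⟩
      exact ⟨κ, hκ, fun s hs q hq => h s hs q (hAB hq)⟩
    · rintro A B ⟨κ, hκ, h⟩ ⟨κ', hκ', h'⟩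
      refine ⟨min κ κ', lt_min hκ hκ', ?_⟩
      rintro s hs q (hq | hq)
      · exact h s (hs.trans_le (min_le_left _ _)) q hq
      · exact h' s (hs.trans_le (min_le_right _ _)) q hq
    · rintro ⟨y, y'⟩ -
      by_cases hyy : y = y'
      · subst hyy
        obtain ⟨κ, O, O', hκ, hO, -, h⟩ := loc_diffeo hK hr h0 y
        refine ⟨O ×ˢ O, mem_nhdsWithin_of_mem_nhds (prod_mem_nhds hO hO), κ, hκ, ?_⟩
        rintro s hs q ⟨hq1, hq2⟩ hq
        exact (h s hs).1 hq1 hq2 hq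
      · obtain ⟨A, B, hA, hB, hyA, hyB, hAB⟩ := t2_separation hyy
        have h1 : ∀ (y : N) (A : Set N), IsOpen A → y ∈ A → ∃ κ : ℝ, 0 < κ ∧ ∃ A' ∈ 𝓝 y,
            ∀ s : P, ‖s‖ < κ → ∀ a ∈ A', K s a ∈ A := by
          intro y A hA hy
          have h2 : (fun q : P × N => K q.1 q.2) ⁻¹' A ∈ 𝓝 ((0 : P), y) := by
            apply hcK.continuousAt.preimage_mem_nhds
            show A ∈ 𝓝 (K 0 y)
            rw [h0]
            exact hA.mem_nhds hy
          rw [nhds_prod_eq] at h2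
          obtain ⟨S, hS, A', hA', hSA⟩ := Filter.mem_prod_iff.1 h2
          obtain ⟨κ, hκ, hκS⟩ := Metric.mem_nhds_iff.1 hS
          refine ⟨κ, hκ, A', hA', fun s hs a ha => ?_⟩
          have h3 : (s, a) ∈ S ×ˢ A' := mk_mem_prod (hκS (by rwa [mem_ball, dist_zero_right])) ha
          exact hSA h3
        obtain ⟨κ, hκ, A', hA', h2⟩ := h1 y A hA hyA
        obtain ⟨κ', hκ', B', hB', h3⟩ := h1 y' B hB hyB
        refine ⟨A' ×ˢ B', mem_nhdsWithin_of_mem_nhds (prod_mem_nhds hA' hB'), min κ κ',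
          lt_min hκ hκ', ?_⟩
        rintro s hs q ⟨hq1, hq2⟩ hq
        exfalso
        refine Set.disjoint_left.1 hAB (h2 s (hs.trans_le (min_le_left _ _)) q.1 hq1) ?_
        rw [hq]
        exact h3 s (hs.trans_le (min_le_right _ _)) q.2 hq2
  obtain ⟨κ, hκ, h⟩ := key
  exact ⟨κ, hκ, fun s hs a b hab => h s hs (a, b) (mem_univ _) hab⟩

/-- A jointly `C^r` family of maps of a compact manifold through the identity consists of
diffeomorphisms for small parameters. -/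
theorem fam_id {K : P → N → N}
    (hK : ContMDiff (𝓘(ℝ, P).prod (𝓡 n)) (𝓡 n) r (fun q : P × N => K q.1 q.2)) (hr : 1 ≤ r)
    (h0 : ∀ y, K 0 y = y) :
    ∃ κ : ℝ, 0 < κ ∧ ∀ s : P, ‖s‖ < κ → ∃ G : DiffM n N r, ∀ y, G y = K s y := by
  obtain ⟨κ₁, hκ₁, hinj⟩ := fam_inj hK hr h0
  have key : ∃ κ : ℝ, 0 < κ ∧ ∀ s : P, ‖s‖ < κ → ∀ y ∈ (univ : Set N), y ∈ range (K s) ∧
      IsLocalDiffeomorphAt (𝓡 n) (𝓡 n) r (K s) y := by
    refine isCompact_univ.induction_on (p := fun A : Set N => ∃ κ : ℝ, 0 < κ ∧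
      ∀ s : P, ‖s‖ < κ → ∀ y ∈ A, y ∈ range (K s) ∧
      IsLocalDiffeomorphAt (𝓡 n) (𝓡 n) r (K s) y) ?_ ?_ ?_ ?_
    · exact ⟨1, one_pos, fun s _ q hq => absurd hq (notMem_empty q)⟩
    · rintro A B hAB ⟨κ, hκ, h⟩
      exact ⟨κ, hκ, fun s hs q hq => h s hs q (hAB hq)⟩
    · rintro A B ⟨κ, hκ, h⟩ ⟨κ', hκ', h'⟩
      refine ⟨min κ κ', lt_min hκ hκ', ?_⟩
      rintro s hs q (hq | hq)
      · exact h s (hs.trans_le (min_le_left _ _)) q hq
      · exact h' s (hs.trans_le (min_le_right _ _)) q hq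
    · rintro y -
      obtain ⟨κ, O, O', hκ, hO, hO', h⟩ := loc_diffeo hK hr h0 y
      refine ⟨O ∩ O', mem_nhdsWithin_of_mem_nhds (inter_mem hO hO'), κ, hκ, ?_⟩
      rintro s hs w ⟨hw1, hw2⟩
      obtain ⟨h1, h2, h3⟩ := h s hs
      obtain ⟨v, -, hv⟩ := h2 hw2
      exact ⟨⟨v, hv⟩, h3 w hw1⟩
  obtain ⟨κ₂, hκ₂, hk2⟩ := key
  refine ⟨min κ₁ κ₂, lt_min hκ₁ hκ₂, fun s hs => ?_⟩
  have hi : Function.Injective (K s) := hinj s (hs.trans_le (min_le_left _ _))
  have hs2 := hk2 s (hs.trans_le (min_le_right _ _))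
  have hsurj : Function.Surjective (K s) := fun y => (hs2 y (mem_univ _)).1
  have hloc : ∀ y, IsLocalDiffeomorphAt (𝓡 n) (𝓡 n) r (K s) y := fun y => (hs2 y (mem_univ _)).2
  obtain ⟨g, hg1, hg2⟩ := Function.bijective_iff_has_inverse.1 ⟨hi, hsurj⟩
  refine ⟨{ toFun := K s
            invFun := g
            left_inv := hg1
            right_inv := hg2
            contMDiff_toFun := fun y => (hloc y).contMDiffAt
            contMDiff_invFun := ?_ }, fun y => rfl⟩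
  intro w
  obtain ⟨Φ, hΦ1, hΦ2⟩ := hloc (g w)
  have h1 : EqOn g Φ.symm Φ.target := by
    intro v hv
    apply hi
    have h3 : K s (Φ.toPartialEquiv.symm v) = Φ.toPartialEquiv (Φ.toPartialEquiv.symm v) :=
      hΦ2 (Φ.map_target hv)
    rw [hg2]
    show v = K s (Φ.toPartialEquiv.symm v)
    rw [h3]
    exact (Φ.right_inv hv).symm
  have h2 : w ∈ Φ.target := by
    have h3 := Φ.map_source hΦ1
    have h4 : Φ.toPartialEquiv (g w) = w := by
      rw [← hg2 w]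
      have h5 := hΦ2 hΦ1
      rw [hg2] at h5 ⊢
      exact h5.symm
    rwa [h4] at h3
  exact (Φ.symm.contMDiffOn.congr h1).contMDiffAt (Φ.open_target.mem_nhds h2)

/-- Families of maps through a diffeomorphism. -/
theorem fam_diffeo (hr : 1 ≤ r) (F : DiffM n N r) {H : P → N → N}
    (hH : ContMDiff (𝓘(ℝ, P).prod (𝓡 n)) (𝓡 n) r (fun q : P × N => H q.1 q.2))
    (h0 : ∀ y, H 0 y = F y) :
    ∃ (G : P → DiffM n N r) (κ : ℝ), 0 < κ ∧ G 0 = F ∧ IsFam n N r G ∧
      ∀ s, ‖s‖ < κ → ∀ y, G s y = H s y := by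
  classical
  have hK : ContMDiff (𝓘(ℝ, P).prod (𝓡 n)) (𝓡 n) r (fun q : P × N => F.symm (H q.1 q.2)) :=
    F.symm.contMDiff.comp hH
  obtain ⟨κ, hκ, h1⟩ := fam_id (K := fun s y => F.symm (H s y)) hK hr (fun y => by
    show F.symm (H 0 y) = y
    rw [h0, F.symm_apply_apply])
  have : Nonempty (DiffM n N r) := ⟨F⟩
  choose! G' hG' using h1
  refine ⟨fun s => if ‖s‖ < κ then (G' s).trans F else F, κ, hκ, ?_, ?_, ?_⟩
  · have h2 : ‖(0 : P)‖ < κ := by rwa [norm_zero]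
    show (if ‖(0 : P)‖ < κ then (G' 0).trans F else F) = F
    rw [if_pos h2]
    ext y
    show F (G' 0 y) = F y
    rw [hG' 0 h2, h0, F.symm_apply_apply]
  · intro y
    have hq' : Tendsto (fun z : P × N => ‖z.1‖) (𝓝 ((0 : P), y)) (𝓝 ‖(0 : P)‖) :=
      continuous_fst.norm.tendsto _
    have hev : ∀ᶠ z : P × N in 𝓝 ((0 : P), y), ‖z.1‖ < κ :=
      hq'.eventually (gt_mem_nhds (by rwa [norm_zero]))
    refine (hH.contMDiffAt (x := ((0 : P), y))).congr_of_eventuallyEq ?_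
    filter_upwards [hev] with z hz
    show (if ‖z.1‖ < κ then (G' z.1).trans F else F) z.2 = H z.1 z.2
    rw [if_pos hz]
    show F (G' z.1 z.2) = H z.1 z.2
    rw [hG' _ hz, F.apply_symm_apply]
  · intro s hs y
    show (if ‖s‖ < κ then (G' s).trans F else F) y = H s y
    rw [if_pos hs]
    show F (G' s y) = H s y
    rw [hG' _ hs, F.apply_symm_apply]

end glob

end Pool.Agent.KS6_36.LH
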