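import Pool.Agent.KS6_36.LH.Min2

/-!
# Closed orbits of the flows `e ε`, and their accumulation
-/

set_option autoImplicit false
set_option linter.unusedSimpArgs false

open Filter Set Topology

namespace Pool.Agent.KS6_36.LH

open Pool.Agent.TH382.QC Pool.Agent.TH382.HS

theorem e_cont : Continuous (fun p : ℝ × ℝ => e p.1 p.2) := by
  have h1 : Topology.IsInducing (fun x : SL2 => x.1) := ⟨rfl⟩
  rw [h1.continuous_iff]
  exact continuous_pi fun i => continuous_pi fun j => (e_smooth i j).continuous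

/-- a version of `ε^(-1/2)` as a diagonal matrix -/
noncomputable def dd (ε : ℝ) : SL2 := dia (Real.exp (-(Real.log ε / 2))) (Real.exp_ne_zero _)

theorem dd_cont : ContinuousOn dd (Ioi 0) := by
  have h1 : ContinuousOn (fun ε : ℝ => -(Real.log ε / 2)) (Ioi 0) :=
    ((Real.continuousOn_log.mono (fun x hx => ne_of_gt hx)).div_const 2).neg
  exact diaexp_cont.comp_continuousOn h1

theorem e00 (ε t : ℝ) : (e ε t).1 0 0 = Real.cosh (ε * t) := rfl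
theorem e01 (ε t : ℝ) : (e ε t).1 0 1 = t * shc (ε * t) := rfl
theorem e10 (ε t : ℝ) : (e ε t).1 1 0 = ε * Real.sinh (ε * t) := rfl
theorem e11 (ε t : ℝ) : (e ε t).1 1 1 = Real.cosh (ε * t) := rfl

theorem e_dd (ε t : ℝ) (hε : 0 < ε) : e ε t * dd ε = dd ε * e 1 (ε * t) := by
  have h1 : Real.exp (-(Real.log ε / 2)) * Real.exp (-(Real.log ε / 2)) = ε⁻¹ := by
    rw [← Real.exp_add]
    have : -(Real.log ε / 2) + -(Real.log ε / 2) = -Real.log ε := by ring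
    rw [this, Real.exp_neg, Real.exp_log hε]
  obtain ⟨a, ha⟩ : ∃ a, a = Real.exp (-(Real.log ε / 2)) := ⟨_, rfl⟩
  have ha0 : a ≠ 0 := by rw [ha]; exact Real.exp_ne_zero _
  have hdd : dd ε = dia a ha0 := by
    unfold dd
    subst ha
    rfl
  rw [← ha] at h1
  have h2 : ε * a ^ 2 = 1 := by rw [pow_two, h1, mul_inv_cancel₀ hε.ne']
  have hm := mul_shc (ε * t)
  obtain ⟨X, hX⟩ : ∃ X, X = shc (ε * t) := ⟨_, rfl⟩
  obtain ⟨Y, hY⟩ : ∃ Y, Y = Real.sinh (ε * t) := ⟨_, rfl⟩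
  rw [hdd]
  apply sl_ext
  · simp only [mul00, e00, e01, e10, e11, dia00, dia01, dia10, dia11, one_mul]; ring
  · simp only [mul01, e00, e01, e10, e11, dia00, dia01, dia10, dia11, one_mul]
    rw [← hX, ← hY] at hm
    rw [← hX]
    have h3 : t * X * a⁻¹ = a * (ε * t * X) := by
      have e1 : a * (ε * t * X) = a⁻¹ * (ε * a ^ 2) * (t * X) := by
        field_simp
      rw [e1, h2]
      ring
    rw [zero_mul, hm, ← hY] at *
    linarith
  · simp only [mul10, e00, e01, e10, e11, dia00, dia01, dia10, dia11, one_mul]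
    have h3 : ε * Real.sinh (ε * t) * a = a⁻¹ * Real.sinh (ε * t) := by
      rw [← hY]
      have e1 : a⁻¹ * Y = a⁻¹ * (ε * a ^ 2) * Y := by rw [h2, mul_one]
      rw [e1]
      field_simp
    linarith
  · simp only [mul11, e00, e01, e10, e11, dia00, dia01, dia10, dia11, one_mul]; ring

/-- an element with trace `> 2` is conjugate to `e 1 ℓ`, `ℓ > 0` -/
theorem conj_e (γ : SL2) (h : 2 < γ.1 0 0 + γ.1 1 1) :
    ∃ ℓ : ℝ, 0 < ℓ ∧ ∃ k : SL2, e 1 ℓ * k⁻¹ = k⁻¹ * γ := by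
  obtain ⟨C, hC⟩ : ∃ C, C = (γ.1 0 0 + γ.1 1 1) / 2 := ⟨_, rfl⟩
  have hC1 : 1 < C := by rw [hC]; linarith
  obtain ⟨ℓ, hℓ, hℓC⟩ : ∃ ℓ : ℝ, 0 < ℓ ∧ Real.cosh ℓ = C := by
    refine ⟨Real.arsinh (√(C ^ 2 - 1)), ?_, ?_⟩
    · rw [Real.arsinh_pos_iff]
      apply Real.sqrt_pos.2
      nlinarith
    · rw [Real.cosh_arsinh, Real.sq_sqrt (by nlinarith)]
      have : 1 + (C ^ 2 - 1) = C ^ 2 := by ring
      rw [this, Real.sqrt_sq (by linarith)]
  obtain ⟨S, hS⟩ : ∃ S, S = Real.sinh ℓ := ⟨_, rfl⟩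
  have hS0 : 0 < S := by rw [hS]; exact Real.sinh_pos_iff.2 hℓ
  have hCS : C ^ 2 = S ^ 2 + 1 := by rw [← hℓC, hS]; exact Real.cosh_sq ℓ
  obtain ⟨a, ha⟩ : ∃ a, a = γ.1 0 0 := ⟨_, rfl⟩
  obtain ⟨b, hb⟩ : ∃ b, b = γ.1 0 1 := ⟨_, rfl⟩
  obtain ⟨c, hc⟩ : ∃ c, c = γ.1 1 0 := ⟨_, rfl⟩
  obtain ⟨d, hd⟩ : ∃ d, d = γ.1 1 1 := ⟨_, rfl⟩
  have hdet := det_eq γ
  rw [← ha, ← hb, ← hc, ← hd] at hdet
  rw [← ha, ← hd] at hC
  have hdisc : (d - a) ^ 2 + 4 * b * c = 4 * S ^ 2 := by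
    have h1 : (a + d) ^ 2 = 4 * C ^ 2 := by rw [hC]; ring
    nlinarith
  -- a vector with a positive value of the form
  have hpos : ∃ x y : ℝ, 0 < c * x ^ 2 + (d - a) * x * y - b * y ^ 2 := by
    rcases lt_trichotomy c 0 with h1 | h1 | h1
    · refine ⟨-(d - a) / (2 * c), 1, ?_⟩
      have h2 : c * (-(d - a) / (2 * c)) ^ 2 + (d - a) * (-(d - a) / (2 * c)) * 1 - b * 1 ^ 2 =
          S ^ 2 / (-c) := by
        have hc0 : c ≠ 0 := h1.ne
        rw [eq_div_iff (neg_ne_zero.2 h1.ne)]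
        field_simp
        linear_combination hdisc
      rw [h2]
      exact div_pos (by positivity) (neg_pos.2 h1)
    · rw [h1] at hdisc
      have h2 : d - a ≠ 0 := by
        intro h3
        rw [h3] at hdisc
        nlinarith
      refine ⟨(1 + b) / (d - a), 1, ?_⟩
      rw [h1]
      have h3 : 0 * ((1 + b) / (d - a)) ^ 2 + (d - a) * ((1 + b) / (d - a)) * 1 - b * 1 ^ 2 = 1 := by
        field_simp
        ring
      rw [h3]
      exact one_pos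
    · exact ⟨1, 0, by simpa using h1⟩
  obtain ⟨x₀, y₀, hQ⟩ := hpos
  obtain ⟨w, hw⟩ : ∃ w, w = √(S / (c * x₀ ^ 2 + (d - a) * x₀ * y₀ - b * y₀ ^ 2)) := ⟨_, rfl⟩
  have hw2 : w ^ 2 * (c * x₀ ^ 2 + (d - a) * x₀ * y₀ - b * y₀ ^ 2) = S := by
    rw [hw, Real.sq_sqrt (by positivity), div_mul_cancel₀ _ hQ.ne']
  obtain ⟨x, hx⟩ : ∃ x, x = w * x₀ := ⟨_, rfl⟩
  obtain ⟨y, hy⟩ : ∃ y, y = w * y₀ := ⟨_, rfl⟩
  have hxy : c * x ^ 2 + (d - a) * x * y - b * y ^ 2 = S := by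
    rw [← hw2, hx, hy]
    ring
  -- the second column
  have hkdet : Matrix.det !![x, ((a - C) * x + b * y) / S; y, (c * x + (d - C) * y) / S] = 1 := by
    rw [Matrix.det_fin_two_of]
    field_simp
    linear_combination hxy
  obtain ⟨k, hk⟩ : ∃ k : SL2, k = ⟨_, hkdet⟩ := ⟨_, rfl⟩
  refine ⟨ℓ, hℓ, k, ?_⟩
  rw [mul_inv_eq_iff_eq_mul, mul_assoc, eq_inv_mul_iff_mul_eq]
  have e1 : (e 1 ℓ).1 0 0 = C := by rw [e00, one_mul, hℓC]
  have e2 : (e 1 ℓ).1 0 1 = S := by rw [e01, one_mul, mul_shc, hS]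
  have e3 : (e 1 ℓ).1 1 0 = S := by rw [e10, one_mul, one_mul, hS]
  have e4 : (e 1 ℓ).1 1 1 = C := by rw [e11, one_mul, hℓC]
  have k1 : k.1 0 0 = x := by rw [hk]; rfl
  have k2 : k.1 0 1 = ((a - C) * x + b * y) / S := by rw [hk]; rfl
  have k3 : k.1 1 0 = y := by rw [hk]; rfl
  have k4 : k.1 1 1 = (c * x + (d - C) * y) / S := by rw [hk]; rfl
  have h2C : a + d = 2 * C := by rw [hC]; ring
  apply sl_ext
  · rw [mul00, mul00, ← ha, ← hb, e1, e3, k1, k2, k3]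
    field_simp
    ring
  · rw [mul01, mul01, ← ha, ← hb, e2, e4, k1, k2, k4]
    field_simp
    have ed : d = 2 * C - a := by linarith
    subst ed
    linear_combination (-x) * hCS + x * hdet
  · rw [mul10, mul10, ← hc, ← hd, e1, e3, k1, k3, k4]
    field_simp
    ring
  · rw [mul11, mul11, ← hc, ← hd, e2, e4, k2, k3, k4]
    field_simp
    have ea : a = 2 * C - d := by linarith
    subst ea
    linear_combination (-y) * hCS + y * hdet

section hyp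

variable {Γ : Subgroup SL2} {W : Set SL2} (hW : W ∈ 𝓝 (1 : SL2))
    (hWΓ : ∀ g ∈ W, g ∈ Γ → g = 1) {K : Set SL2} (hK : IsCompact K)
    (hKΓ : ∀ g, ∃ k ∈ K, k⁻¹ * g ∈ Γ)

theorem dia_pow (a : ℝ) (ha : a ≠ 0) (n : ℕ) : dia a ha ^ n = dia (a ^ n) (pow_ne_zero n ha) := by
  induction n with
  | zero =>
    rw [pow_zero, ← dia_one]
    apply sl_ext <;> simp only [dia00, dia01, dia10, dia11, pow_zero]
  | succ n ih =>
    rw [pow_succ, ih, dia_mul]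
    apply sl_ext <;> simp only [dia00, dia01, dia10, dia11, pow_succ]

theorem trace_comm (g h : SL2) : (g * h).1 0 0 + (g * h).1 1 1 = (h * g).1 0 0 + (h * g).1 1 1 := by
  simp only [mul00, mul11]
  ring

include hW hWΓ hK hKΓ in
/-- a hyperbolic element -/
theorem hyp_elt : ∃ γ ∈ Γ, 2 < γ.1 0 0 + γ.1 1 1 := by
  obtain ⟨q, hq⟩ : ∃ q : SL2 × SL2 → SL2, ∀ p, q p = p.1 * p.2⁻¹ := ⟨_, fun p => rfl⟩
  have hc : Continuous q := by
    have : q = fun p => p.1 * p.2⁻¹ := funext hq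
    rw [this]
    fun_prop
  have h1 : {g : SL2 | 3 / 4 < g.1 0 0 ∧ 0 < g.1 1 1} ∈ 𝓝 (1 : SL2) := by
    refine inter_mem ?_ ?_
    · apply (entry_cont 0 0).continuousAt.eventually (lt_mem_nhds _)
      show 3 / 4 < (1 : SL2).1 0 0
      rw [← hor_zero, hor00]
      norm_num
    · apply (entry_cont 1 1).continuousAt.eventually (lt_mem_nhds _)
      show 0 < (1 : SL2).1 1 1
      rw [← hor_zero, hor11]
      norm_num
  have h2 : q ⁻¹' {g : SL2 | 3 / 4 < g.1 0 0 ∧ 0 < g.1 1 1} ∈ 𝓝 ((1 : SL2), (1 : SL2)) := by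
    apply hc.continuousAt.preimage_mem_nhds
    rw [hq]
    simpa using h1
  rw [nhds_prod_eq] at h2
  obtain ⟨B, hB, hB2⟩ := Filter.mem_prod_same_iff.1 h2
  obtain ⟨n, hn, b, hb, b', hb', γ, hγ, he⟩ := recur Γ W hW hWΓ K hK hKΓ
    (dia 4 (by norm_num)) B hB
  refine ⟨γ, hγ, ?_⟩
  have h3 : q (b, b') ∈ {g : SL2 | 3 / 4 < g.1 0 0 ∧ 0 < g.1 1 1} := hB2 (mk_mem_prod hb hb')
  rw [hq] at h3
  obtain ⟨h4, h5⟩ := h3
  have e1 : γ = b'⁻¹ * (dia 4 (by norm_num) ^ n * b) := by rw [he, inv_mul_cancel_left]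
  rw [e1, trace_comm, mul_assoc, dia_pow]
  obtain ⟨m, hm⟩ : ∃ m, m = b * b'⁻¹ := ⟨_, rfl⟩
  have h4' : 3 / 4 < m.1 0 0 := by rw [hm]; exact h4
  have h5' : 0 < m.1 1 1 := by rw [hm]; exact h5
  rw [← hm]
  simp only [mul00, mul11, dia00, dia01, dia10, dia11, zero_mul, add_zero, zero_add]
  have h6 : (4 : ℝ) ≤ 4 ^ n := by
    calc (4 : ℝ) = 4 ^ 1 := (pow_one _).symm
      _ ≤ 4 ^ n := pow_le_pow_right₀ (by norm_num) hn
  have h7 : 0 < ((4 : ℝ) ^ n)⁻¹ := by positivity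
  nlinarith [mul_pos h7 h5']

include hW hWΓ hK hKΓ in
/-- the family of closed orbits -/
theorem closed_orbits : ∃ ℓ : ℝ, 0 < ℓ ∧ ∃ gg : ℝ → SL2, ContinuousOn gg (Ioi 0) ∧
    ∃ γ ∈ Γ, ∀ ε, 0 < ε → e ε (ℓ / ε) * gg ε = gg ε * γ := by
  obtain ⟨γ, hγ, htr⟩ := hyp_elt hW hWΓ hK hKΓ
  obtain ⟨ℓ, hℓ, k, hk⟩ := conj_e γ htr
  refine ⟨ℓ, hℓ, fun ε => dd ε * k⁻¹, dd_cont.mul continuousOn_const, γ, hγ, fun ε hε => ?_⟩
  rw [← mul_assoc, e_dd _ _ hε, mul_div_cancel₀ _ hε.ne', mul_assoc, hk, mul_assoc]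

include hW hWΓ hK hKΓ in
/-- every orbit of `e ε` comes close to every point, for small `ε` -/
theorem approach (O : Set SL2) (hO : IsOpen O) (hne : O.Nonempty) :
    ∀ᶠ ε in 𝓝 (0 : ℝ), ∀ g : SL2, ∃ t : ℝ, ∃ γ ∈ Γ, e ε t * g * γ ∈ O := by
  have h1 : ∀ y : SL2, ∃ t : ℝ, ∃ γ ∈ Γ, hor t * y * γ ∈ O := by
    by_contra hcon
    push Not at hcon
    obtain ⟨y, hy⟩ := hcon
    have hY : HInv Γ {y : SL2 | ∀ t : ℝ, ∀ γ ∈ Γ, hor t * y * γ ∉ O} := by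
      refine ⟨?_, ?_, ?_⟩
      · have e1 : {y : SL2 | ∀ t : ℝ, ∀ γ ∈ Γ, hor t * y * γ ∉ O} =
            ⋂ t : ℝ, ⋂ γ ∈ Γ, (fun y : SL2 => hor t * y * γ) ⁻¹' Oᶜ := by
          ext y
          simp only [mem_iInter]
          exact Iff.rfl
        rw [e1]
        refine isClosed_iInter fun t => isClosed_biInter fun γ _ => ?_
        exact hO.isClosed_compl.preimage (by fun_prop)
      · intro s y hy t γ hγ
        have h2 := hy (t + s) γ hγ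
        rwa [hor_add, mul_assoc (hor t)] at h2
      · intro γ' hγ' y hy t γ hγ
        have h2 := hy t (γ' * γ) (Γ.mul_mem hγ' hγ)
        have e1 : hor t * (y * γ') * γ = hor t * y * (γ' * γ) := by group
        rwa [e1]
    have h2 := hedlund hW hWΓ hK hKΓ hY ⟨y, hy⟩
    obtain ⟨o, ho⟩ := hne
    have h3 : o ∈ ({y : SL2 | ∀ t : ℝ, ∀ γ ∈ Γ, hor t * y * γ ∉ O} : Set SL2) := by rw [h2]; trivial
    apply h3 0 1 Γ.one_mem
    rwa [hor_zero, one_mul, mul_one]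
  have h2 : ∀ᶠ ε in 𝓝 (0 : ℝ), ∀ g ∈ K, ∃ t : ℝ, ∃ γ ∈ Γ, e ε t * g * γ ∈ O := by
    apply hK.eventually_forall_of_forall_eventually
      (P := fun ε g => ∃ t : ℝ, ∃ γ ∈ Γ, e ε t * g * γ ∈ O)
    intro g _
    obtain ⟨t, γ, hγ, h3⟩ := h1 g
    have hc : Continuous (fun z : ℝ × SL2 => e z.1 t * z.2 * γ) := by
      refine Continuous.mul (Continuous.mul ?_ continuous_snd) continuous_const
      exact e_cont.comp (continuous_fst.prodMk continuous_const)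
    have h4 : (fun z : ℝ × SL2 => e z.1 t * z.2 * γ) ⁻¹' O ∈ 𝓝 ((0 : ℝ), g) := by
      apply hc.continuousAt.preimage_mem_nhds
      apply hO.mem_nhds
      show e 0 t * g * γ ∈ O
      rwa [e_zero_eps]
    filter_upwards [h4] with z hz
    exact ⟨t, γ, hγ, hz⟩
  filter_upwards [h2] with ε hε g
  obtain ⟨k, hk, hkγ⟩ := hKΓ g
  obtain ⟨t, γ, hγ, h3⟩ := hε k hk
  refine ⟨t, (k⁻¹ * g)⁻¹ * γ, Γ.mul_mem (Γ.inv_mem hkγ) hγ, ?_⟩
  have e1 : e ε t * g * ((k⁻¹ * g)⁻¹ * γ) = e ε t * k * γ := by group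
  rwa [e1]

include hW hWΓ hK hKΓ in
/-- a function which is `≥ 0` along a half orbit of the horocycle flow is `≥ 0` everywhere -/
theorem half_orbit (f : SL2 → ℝ) (hf : Continuous f) (hfΓ : ∀ g, ∀ γ ∈ Γ, f (g * γ) = f g)
    (θ : ℝ) (hθ : θ ≠ 0) (g₀ : SL2) (h : ∀ t : ℝ, 0 ≤ t → 0 ≤ f (hor (θ * t) * g₀)) (g : SL2) :
    0 ≤ f g := by
  have : SecondCountableTopology (Matrix (Fin 2) (Fin 2) ℝ) :=
    inferInstanceAs (SecondCountableTopology (Fin 2 → Fin 2 → ℝ))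
  have : SecondCountableTopology SL2 :=
    (⟨rfl⟩ : Topology.IsInducing (fun x : SL2 => x.1)).secondCountableTopology
  have hY : HInv Γ {y : SL2 | ∀ t : ℝ, 0 ≤ f (hor t * y)} := by
    refine ⟨?_, ?_, ?_⟩
    · have e1 : {y : SL2 | ∀ t : ℝ, 0 ≤ f (hor t * y)} =
          ⋂ t : ℝ, (fun y : SL2 => f (hor t * y)) ⁻¹' Ici 0 := by
        ext y
        simp only [mem_iInter]
        exact Iff.rfl
      rw [e1]
      exact isClosed_iInter fun t => isClosed_Ici.preimage (by fun_prop)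
    · intro s y hy t
      have h2 := hy (t + s)
      rwa [hor_add, mul_assoc (hor t)] at h2
    · intro γ' hγ' y hy t
      have h2 := hy t
      rw [← mul_assoc, hfΓ _ _ hγ']
      exact h2
  have h1 : ∀ n : ℕ, ∃ k ∈ K, k⁻¹ * (hor (θ * n) * g₀) ∈ Γ := fun n => hKΓ _
  choose k hk hkγ using h1
  obtain ⟨k₀, hk₀, φ, hφ, hlim⟩ := hK.tendsto_subseq hk
  have h2 : k₀ ∈ {y : SL2 | ∀ t : ℝ, 0 ≤ f (hor t * y)} := by
    intro t
    have h3 : Tendsto (fun n => f (hor t * k (φ n))) atTop (𝓝 (f (hor t * k₀))) :=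
      (hf.tendsto _).comp ((continuous_const.mul continuous_id).continuousAt.tendsto.comp hlim)
    apply ge_of_tendsto h3
    obtain ⟨m, hm⟩ := exists_nat_ge (-(t / θ))
    filter_upwards [eventually_ge_atTop m] with n hn
    have h4 : f (hor t * k (φ n)) = f (hor t * (hor (θ * (φ n : ℕ)) * g₀)) := by
      have e1 : hor t * (hor (θ * (φ n : ℕ)) * g₀) =
          hor t * k (φ n) * ((k (φ n))⁻¹ * (hor (θ * (φ n : ℕ)) * g₀)) := by group
      rw [e1, hfΓ _ _ (hkγ _)]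
    rw [h4, ← mul_assoc, ← hor_add]
    have h5 : t + θ * (φ n : ℕ) = θ * (t / θ + (φ n : ℕ)) := by
      field_simp
    rw [h5]
    apply h
    have h6 : (m : ℝ) ≤ (φ n : ℕ) := by
      have h7 := hφ.id_le n
      exact_mod_cast le_trans hn h7
    linarith
  have h3 := hedlund hW hWΓ hK hKΓ hY ⟨k₀, h2⟩
  have h4 : g ∈ ({y : SL2 | ∀ t : ℝ, 0 ≤ f (hor t * y)} : Set SL2) := by rw [h3]; trivial
  have h5 := h4 0
  rwa [hor_zero, one_mul] at h5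

end hyp

end Pool.Agent.KS6_36.LH
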