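import Pool.Agent.KS6_36.LH.Core
import Pool.Agent.KS6_36.LH.Fam
import Pool.Graph.R_seed8.TH382.HS.Limit

/-!
# Closing of leafwise maps of horocycle flows
-/

set_option autoImplicit false
set_option linter.unusedSectionVars false

open scoped Manifold ContDiff Topology
open Filter Set Metric

universe u

namespace Pool.Agent.KS6_36.LH

open Pool.Agent.H718R2.G Pool.Agent.W564.SC Pool.Agent.TH382.QC Pool.Agent.TH382.HS

section wander

variable {N : Type u} [TopologicalSpace N] [T2Space N] [CompactSpace N] {ρ : SL2 → N → N}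
  (hρ1 : ∀ y, ρ 1 y = y) (hρm : ∀ g h y, ρ (g * h) y = ρ g (ρ h y))
  (hρc : Continuous (fun p : SL2 × N => ρ p.1 p.2)) {τ : N → ℝ} (hτ : Continuous τ)

include hρ1 hρm hρc hτ in
/-- a nonwandering point at which `τ` is positive lies on an orbit on which `τ ≥ 0` -/
theorem nonwandering_sign (θ : ℝ) (hθ : θ ≠ 0) {F : N → N} (hF : Function.Injective F)
    (hFτ : ∀ y, F y = ρ (hor (θ * τ y)) y) {z : N} (hz : IsLatticePt ρ z) (hzΩ : NonWand F z)
    (hz0 : 0 < τ z) (g : SL2) : 0 ≤ τ (ρ g z) := by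
  obtain ⟨⟨W, hW, hWz⟩, K, hK, hKz⟩ := hz
  have hKΓ := stab_K hρ1 hρm hKz
  have hWΓ : ∀ g ∈ W, g ∈ stab hρ1 hρm z → g = 1 := hWz
  have hρz : Continuous (fun g : SL2 => ρ g z) := hρc.comp (continuous_id.prodMk continuous_const)
  by_contra hcon
  obtain ⟨L, hL0, hL⟩ : ∃ L : ℝ, 0 ≤ L ∧ τ (ρ (hor (θ * L)) z) < 0 := by
    by_contra hcon2
    push Not at hcon2
    apply hcon
    apply half_orbit hW hWΓ hK hKΓ (fun g => τ (ρ g z)) (hτ.comp hρz) _ θ hθ 1 _ g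
    · intro g γ hγ
      show τ (ρ (g * γ) z) = τ (ρ g z)
      rw [hρm, show ρ γ z = z from hγ]
    · intro t ht
      show 0 ≤ τ (ρ (hor (θ * t) * 1) z)
      rw [mul_one]
      exact hcon2 t ht
  have huc : Continuous (fun q : N × ℝ => ρ (hor (θ * q.2)) q.1) :=
    hρc.comp ((hor_cont.comp (continuous_const.mul continuous_snd)).prodMk continuous_fst)
  obtain ⟨c, hc⟩ : ∃ c, c = τ z / 2 := ⟨_, rfl⟩
  have hc0 : 0 < c := by rw [hc]; linarith
  have h1 : ∀ᶠ y in 𝓝 z, τ (ρ (hor (θ * L)) y) < 0 := by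
    have h2 : Continuous (fun y => τ (ρ (hor (θ * L)) y)) :=
      hτ.comp (huc.comp (continuous_id.prodMk continuous_const))
    exact h2.continuousAt.eventually (gt_mem_nhds hL)
  have h2 : ∀ᶠ y in 𝓝 z, c < τ y :=
    hτ.continuousAt.eventually (lt_mem_nhds (by rw [hc]; linarith))
  have h3 : ∀ᶠ q : N × N in 𝓝 (z, z), ∀ t ∈ Icc c L, ρ (hor (θ * t)) q.1 ≠ q.2 := by
    apply isCompact_Icc.eventually_forall_of_forall_eventually
      (P := fun (q : N × N) (t : ℝ) => ρ (hor (θ * t)) q.1 ≠ q.2)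
    intro t ht
    have h4 : IsOpen {w : (N × N) × ℝ | ρ (hor (θ * w.2)) w.1.1 ≠ w.1.2} := by
      apply isOpen_ne_fun
      · exact huc.comp ((continuous_fst.comp continuous_fst).prodMk continuous_snd)
      · exact continuous_snd.comp continuous_fst
    apply h4.mem_nhds
    show ρ (hor (θ * t)) z ≠ z
    intro h5
    have h6 := no_unip hW hWΓ hK hKΓ 1 (θ * t) (by
      rw [inv_one, one_mul, mul_one]
      exact h5)
    rcases mul_eq_zero.1 h6 with h7 | h7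
    · exact hθ h7
    · linarith [ht.1]
  rw [nhds_prod_eq] at h3
  obtain ⟨V₁, hV₁, hV₂⟩ := Filter.mem_prod_same_iff.1 h3
  obtain ⟨k, hk, y, hy, hky⟩ := hzΩ _ (inter_mem (inter_mem h1 h2) hV₁)
  obtain ⟨⟨hy1, hy2⟩, hy3⟩ := hy
  -- the lift on the leaf of `y`
  obtain ⟨S, hS⟩ : ∃ S : ℝ, ∀ w, |τ w| ≤ S := by
    obtain ⟨S, hS⟩ := (isCompact_range hτ).isBounded.exists_norm_le
    exact ⟨S, fun w => hS _ (mem_range_self w)⟩
  obtain ⟨h, hh⟩ : ∃ h : ℝ → ℝ, ∀ t, h t = t + τ (ρ (hor (θ * t)) y) := ⟨_, fun _ => rfl⟩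
  have hFh : ∀ t, F (ρ (hor (θ * t)) y) = ρ (hor (θ * h t)) y := by
    intro t
    rw [hFτ, ← hρm, ← hor_add, hh]
    congr 2
    ring
  have hmono : StrictMono h := by
    apply mono_of_inj (B := S)
    · have : h = fun t => t + τ (ρ (hor (θ * t)) y) := funext hh
      rw [this]
      exact continuous_id.add (hτ.comp (huc.comp (continuous_const.prodMk continuous_id)))
    · intro t t' htt
      have h4 : ρ (hor (θ * t)) y = ρ (hor (θ * t')) y := by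
        apply hF
        rw [hFh, hFh, htt]
      rw [hh, hh, h4] at htt
      linarith
    · intro t
      rw [hh, add_sub_cancel_left]
      exact hS _
  have hit : ∀ i : ℕ, F^[i] y = ρ (hor (θ * h^[i] 0)) y := by
    intro i
    induction i with
    | zero =>
      show y = ρ (hor (θ * 0)) y
      rw [mul_zero, hor_zero, hρ1]
    | succ i ih => rw [Function.iterate_succ_apply', ih, hFh, ← Function.iterate_succ_apply' h]
  have hh0 : c < h 0 := by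
    rw [hh, mul_zero, hor_zero, hρ1, zero_add]
    exact hy2
  have hhL : h L < L := by
    rw [hh]
    have : τ (ρ (hor (θ * L)) y) < 0 := hy1
    linarith
  have hL1 : 0 < L := by
    rcases hL0.lt_or_eq with h4 | h4
    · exact h4
    · rw [← h4, mul_zero, hor_zero, hρ1] at hL
      linarith
  have hbd : ∀ i : ℕ, h^[i + 1] 0 ∈ Ioo c L := by
    intro i
    induction i with
    | zero =>
      exact ⟨hh0, (hmono hL1).trans hhL⟩
    | succ i ih =>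
      rw [Function.iterate_succ_apply']
      refine ⟨?_, (hmono ih.2).trans hhL⟩
      exact hh0.trans_le (hmono.monotone (hc0.le.trans ih.1.le))
  obtain ⟨j, rfl⟩ : ∃ j, k = j + 1 := ⟨k - 1, by omega⟩
  have h5 : (y, F^[j + 1] y) ∈ V₁ ×ˢ V₁ := mk_mem_prod hy3 hky.2
  have h6 := hV₂ h5 (h^[j + 1] 0) ⟨(hbd j).1.le, (hbd j).2.le⟩
  exact h6 (hit (j + 1)).symm

end wander

variable {n : ℕ} {N : Type u} [TopologicalSpace N] [T2Space N] [CompactSpace N]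
  [ChartedSpace (V n) N] [IsManifold (𝓡 n) ∞ N] {r : ℕ∞}

theorem family_smooth {ρ : SL2 → N → N} (hρ : IsSLAction n N univ ρ) {σ : N → ℝ}
    (hσ : ContMDiff (𝓡 n) 𝓘(ℝ, ℝ) r σ) : ContMDiff (𝓘(ℝ, ℝ × ℝ).prod (𝓡 n)) (𝓡 n) r
      (fun q : (ℝ × ℝ) × N => ρ (e q.1.1 (σ q.2 + q.1.2)) q.2) := by
  have h1 : ContMDiff (𝓘(ℝ, ℝ × ℝ).prod (𝓡 n)) (𝓘(ℝ, ℝ × ℝ).prod (𝓡 n)) r
      (fun q : (ℝ × ℝ) × N => (((q.1.1, σ q.2 + q.1.2) : ℝ × ℝ), q.2)) := by
    refine ContMDiff.prodMk ?_ contMDiff_snd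
    have h2 : ContMDiff (𝓘(ℝ, ℝ × ℝ).prod (𝓡 n)) 𝓘(ℝ, ℝ) r
        (fun q : (ℝ × ℝ) × N => q.1.1) :=
      ContMDiff.comp (g := fun p : ℝ × ℝ => p.1) contDiff_fst.contMDiff contMDiff_fst
    have h3 : ContMDiff (𝓘(ℝ, ℝ × ℝ).prod (𝓡 n)) 𝓘(ℝ, ℝ) r
        (fun q : (ℝ × ℝ) × N => q.1.2) :=
      ContMDiff.comp (g := fun p : ℝ × ℝ => p.2) contDiff_snd.contMDiff contMDiff_fst
    have h4 : ContMDiff (𝓘(ℝ, ℝ × ℝ).prod (𝓡 n)) 𝓘(ℝ, ℝ) r
        (fun q : (ℝ × ℝ) × N => σ q.2) := hσ.comp contMDiff_snd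
    have h5 : ContMDiff (𝓘(ℝ, ℝ × ℝ).prod (𝓡 n)) 𝓘(ℝ, ℝ × ℝ) r
        (fun q : (ℝ × ℝ) × N => ((σ q.2, q.1.2) : ℝ × ℝ)) := h4.prodMk_space h3
    have h6 : ContMDiff (𝓘(ℝ, ℝ × ℝ).prod (𝓡 n)) 𝓘(ℝ, ℝ) r
        (fun q : (ℝ × ℝ) × N => σ q.2 + q.1.2) :=
      ContMDiff.comp (g := fun p : ℝ × ℝ => p.1 + p.2)
        (f := fun q : (ℝ × ℝ) × N => ((σ q.2, q.1.2) : ℝ × ℝ))
        (contDiff_fst.add contDiff_snd).contMDiff h5
    exact h2.prodMk_space h6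
  have h2 : ContMDiff (𝓘(ℝ, ℝ × ℝ).prod (𝓡 n)) (𝓡 n) r
      (fun q : (ℝ × ℝ) × N => ρ (e q.1.1 q.1.2) q.2) :=
    (act_smooth hρ).of_le (by exact_mod_cast le_top)
  exact ContMDiff.comp (g := fun q : (ℝ × ℝ) × N => ρ (e q.1.1 q.1.2) q.2)
    (f := fun q : (ℝ × ℝ) × N => (((q.1.1, σ q.2 + q.1.2) : ℝ × ℝ), q.2)) h2 h1

/-- the assembly -/
theorem assemble (hr : 1 ≤ r) {ρ : SL2 → N → N} (hρ : IsSLAction n N univ ρ) {τ : N → ℝ}
    (hτ : ContMDiff (𝓡 n) 𝓘(ℝ, ℝ) r τ) (F₀ F : DiffM n N r)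
    (hF : ∀ y, F y = ρ (hor (τ y)) (F₀ y)) {z : N} (hz : IsLatticePt ρ z)
    (F' : ℕ → DiffM n N r) (hF' : Cv F' F₀) (hcomm : ∀ m, Commutes ρ (F' m)) (q : ℕ → ℕ)
    (hq : ∀ m, 1 ≤ q m) (hper : ∀ m, (F' m)^[q m] z = z)
    (hsign : ∀ m, (∀ g, 0 ≤ DD ρ (fun w => τ (F₀.symm w)) (F' m) (q m) 0 (ρ g z)) ∨
      ∀ g, DD ρ (fun w => τ (F₀.symm w)) (F' m) (q m) 0 (ρ g z) ≤ 0) :
    ClosableAt n N r F z := by
  have hr' : (r : WithTop ℕ∞) ≤ ∞ := by exact_mod_cast le_top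
  have hcomp : S_COMP := Pool.Agent.W917.SC.comp
  have : SecondCountableTopology N := ChartedSpace.secondCountable_of_sigmaCompact (V n) N
  have hρ1 : ∀ y, ρ 1 y = y := fun y => hρ.one y trivial
  have hρm : ∀ g h y, ρ (g * h) y = ρ g (ρ h y) := fun g h y => hρ.mul g h y trivial
  have hρc : Continuous (fun p : SL2 × N => ρ p.1 p.2) := by
    have h1 := hρ.cont
    rwa [univ_prod_univ, continuousOn_univ] at h1
  obtain ⟨σ, hσd⟩ : ∃ σ : N → ℝ, σ = fun w => τ (F₀.symm w) := ⟨_, rfl⟩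
  rw [← hσd] at hsign
  have hσ : ContMDiff (𝓡 n) 𝓘(ℝ, ℝ) r σ := by
    rw [hσd]
    exact hτ.comp F₀.symm.contMDiff
  -- the family
  have hH := family_smooth hρ hσ
  obtain ⟨G, κ, hκ, hG0, hGfam, hGH⟩ := fam_diffeo hr (F₀.symm.trans F)
    (H := fun (p : ℝ × ℝ) w => ρ (e p.1 (σ w + p.2)) w) hH (by
    intro w
    show ρ (e 0 (σ w + 0)) w = F (F₀.symm w)
    rw [e_zero_eps, add_zero, hF, F₀.apply_symm_apply, hσd])
  obtain ⟨O, hO⟩ := (𝓝 z).exists_antitone_basis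
  have key : ∀ m : ℕ, ∃ p : ℝ × ℝ, ‖p‖ < min κ (1 / ((m : ℝ) + 1)) ∧ ∃ y ∈ O m,
      IsPer (FF ρ σ (F' m) p) y := by
    intro m
    apply core hρ1 hρm hρc hσ.continuous (F' m).continuous (hcomm m) hz (hq m) (hper m)
      (F' m).injective hκ _ (hsign m) (lt_min hκ (by positivity)) (hO.1.mem_of_mem trivial)
    intro p hp w w' hww
    have h1 : G p w = G p w' := by
      rw [hGH p hp, hGH p hp]
      exact hww
    exact (G p).injective h1
  choose p hp y hyO hper' using key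
  have hp0 : Tendsto p atTop (𝓝 0) := by
    rw [tendsto_zero_iff_norm_tendsto_zero]
    refine squeeze_zero (fun m => norm_nonneg _) (fun m => ?_)
      tendsto_one_div_add_atTop_nhds_zero_nat
    exact ((hp m).trans_le (min_le_right _ _)).le
  have c1 : Cv (fun m => G (p m)) (G 0) := Cv.fam hcomp hGfam hp0
  have c2 := Cv.trans hcomp hF' c1
  have e0 : F₀.trans (G 0) = F := by
    rw [hG0]
    ext w
    show F (F₀.symm (F₀ w)) = F w
    rw [F₀.symm_apply_apply]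
  rw [e0] at c2
  refine closable_of_seq F z _ c2 y (hO.tendsto hyO) (Eventually.of_forall fun m => ?_)
  obtain ⟨k, hk, hky⟩ := hper' m
  refine ⟨k, hk, ?_⟩
  have e1 : ((fun w => ((F' m).trans (G (p m))) w) : N → N) = FF ρ σ (F' m) (p m) := by
    funext w
    show G (p m) (F' m w) = ρ (e (p m).1 (σ (F' m w) + (p m).2)) (F' m w)
    exact hGH (p m) ((hp m).trans_le (min_le_left _ _)) _
  have e2 : (⇑((F' m).trans (G (p m))))^[k] = (FF ρ σ (F' m) (p m))^[k] := by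
    rw [← e1]
  rw [e2]
  exact hky

theorem DD_nonneg {ρ : SL2 → N → N} {σ : N → ℝ} (h : ∀ w, 0 ≤ σ w) (f : N → N) (i : ℕ) (w : N) :
    0 ≤ DD ρ σ f i 0 w := by
  induction i with
  | zero => exact le_rfl
  | succ i ih =>
    show 0 ≤ DD ρ σ f i 0 w + (σ (ρ (e 0 (DD ρ σ f i 0 w)) (f^[i + 1] w)) + 0)
    have := h (ρ (e 0 (DD ρ σ f i 0 w)) (f^[i + 1] w))
    linarith

theorem DD_nonpos {ρ : SL2 → N → N} {σ : N → ℝ} (h : ∀ w, σ w ≤ 0) (f : N → N) (i : ℕ) (w : N) :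
    DD ρ σ f i 0 w ≤ 0 := by
  induction i with
  | zero => exact le_rfl
  | succ i ih =>
    show DD ρ σ f i 0 w + (σ (ρ (e 0 (DD ρ σ f i 0 w)) (f^[i + 1] w)) + 0) ≤ 0
    have := h (ρ (e 0 (DD ρ σ f i 0 w)) (f^[i + 1] w))
    linarith

/-- skew products -/
theorem main1 (hr : 1 ≤ r) {ρ : SL2 → N → N} (hρ : IsSLAction n N univ ρ) {τ : N → ℝ}
    (hτ : ContMDiff (𝓡 n) 𝓘(ℝ, ℝ) r τ) (hsign : (∀ y, 0 ≤ τ y) ∨ ∀ y, τ y ≤ 0)
    (F₀ F : DiffM n N r) (hF : ∀ y, F y = ρ (hor (τ y)) (F₀ y)) {z : N} (hz : IsLatticePt ρ z)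
    (hF₀ : EquivClosable n N r ρ F₀ z) : ClosableAt n N r F z := by
  have hcomp : S_COMP := Pool.Agent.W917.SC.comp
  obtain ⟨F', hF', hcv⟩ := Cv.exists_seq hcomp F₀ (fun G => Commutes ρ G ∧ IsPer G z) hF₀
  choose hcomm q hq hper using hF'
  refine assemble hr hρ hτ F₀ F hF hz F' hcv hcomm q hq hper fun m => ?_
  rcases hsign with h | h
  · exact Or.inl fun g => DD_nonneg (fun w => h _) _ _ _
  · exact Or.inr fun g => DD_nonpos (fun w => h _) _ _ _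

/-- leafwise maps -/
theorem main2 (hr : 1 ≤ r) {ρ : SL2 → N → N} (hρ : IsSLAction n N univ ρ) {τ : N → ℝ}
    (hτ : ContMDiff (𝓡 n) 𝓘(ℝ, ℝ) r τ) (F : DiffM n N r) (hF : ∀ y, F y = ρ (hor (τ y)) y) {z : N}
    (hz : IsLatticePt ρ z) (hzΩ : NonWand F z) : ClosableAt n N r F z := by
  have hρ1 : ∀ y, ρ 1 y = y := fun y => hρ.one y trivial
  have hρm : ∀ g h y, ρ (g * h) y = ρ g (ρ h y) := fun g h y => hρ.mul g h y trivial
  have hρc : Continuous (fun p : SL2 × N => ρ p.1 p.2) := by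
    have h1 := hρ.cont
    rwa [univ_prod_univ, continuousOn_univ] at h1
  rcases eq_or_ne (τ z) 0 with h0 | h0
  · intro U _ hFU
    refine ⟨F, hFU, 1, le_rfl, ?_⟩
    show F z = z
    rw [hF, h0, hor_zero, hρ1]
  · have hsign : (∀ g, 0 ≤ τ (ρ g z)) ∨ ∀ g, τ (ρ g z) ≤ 0 := by
      rcases lt_or_gt_of_ne h0 with h1 | h1
      · right
        intro g
        have h2 := nonwandering_sign (τ := fun y => -τ y) hρ1 hρm hρc hτ.continuous.neg (-1)
          (by norm_num) (F := fun y => F y) F.injective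
          (fun y => by
            show F y = ρ (hor (-1 * -τ y)) y
            rw [hF, neg_mul_neg, one_mul]) hz hzΩ (by linarith) g
        have h3 : 0 ≤ -τ (ρ g z) := h2
        linarith
      · left
        exact nonwandering_sign hρ1 hρm hρc hτ.continuous 1 one_ne_zero (F := fun y => F y)
          F.injective (fun y => by
            show F y = ρ (hor (1 * τ y)) y
            rw [hF, one_mul]) hz hzΩ h1
    have hDD : ∀ w, DD ρ (fun w => τ ((Diffeomorph.refl (𝓡 n) N r).symm w))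
        (Diffeomorph.refl (𝓡 n) N r) 1 0 w = τ w := by
      intro w
      show 0 + (τ (ρ (e 0 0) w) + 0) = τ w
      rw [e_zero, hρ1]
      ring
    refine assemble hr hρ hτ (Diffeomorph.refl (𝓡 n) N r) F (fun y => hF y) hz
      (fun _ => Diffeomorph.refl (𝓡 n) N r) (Cv.const _) (fun _ g y => rfl) (fun _ => 1)
      (fun _ => le_rfl) (fun _ => rfl) fun _ => ?_
    rcases hsign with h | h
    · exact Or.inl fun g => by rw [hDD]; exact h g
    · exact Or.inr fun g => by rw [hDD]; exact h g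

/-- skew products, limits -/
theorem main3 (hr : 1 ≤ r) {ρ : SL2 → N → N} (hρ : IsSLAction n N univ ρ) {τ : N → ℝ}
    (hτ : ContMDiff (𝓡 n) 𝓘(ℝ, ℝ) r τ) (hsign : (∀ y, 0 ≤ τ y) ∨ ∀ y, τ y ≤ 0)
    (F₀ F : DiffM n N r) (hF : ∀ y, F y = ρ (hor (τ y)) (F₀ y)) {z : N}
    (hz : z ∈ closure {y | IsLatticePt ρ y ∧ EquivClosable n N r ρ F₀ y}) :
    ClosableAt n N r F z :=
  closable_of_limit F z fun _ _ hFU => ⟨F, hFU,
    closure_mono (fun _ hy => main1 hr hρ hτ hsign F₀ F hF hy.1 hy.2) hz⟩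

/-- leafwise maps, limits -/
theorem main4 (hr : 1 ≤ r) {ρ : SL2 → N → N} (hρ : IsSLAction n N univ ρ) {τ : N → ℝ}
    (hτ : ContMDiff (𝓡 n) 𝓘(ℝ, ℝ) r τ) (F : DiffM n N r) (hF : ∀ y, F y = ρ (hor (τ y)) y) {z : N}
    (hz : z ∈ closure {y | IsLatticePt ρ y ∧ NonWand F y}) : ClosableAt n N r F z :=
  closable_of_limit F z fun _ _ hFU => ⟨F, hFU,
    closure_mono (fun _ hy => main2 hr hρ hτ F hF hy.1 hy.2) hz⟩

end Pool.Agent.KS6_36.LH
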