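import Pool.Agent.KS6_36.LH.Exp
import Pool.Graph.R_seed8.TH382.HS.Rec

/-!
# Closed sets invariant under the upper triangular group
-/

set_option autoImplicit false

open Filter Set Topology

namespace Pool.Agent.KS6_36.LH

open Pool.Agent.TH382.QC Pool.Agent.TH382.HS

/-- diagonal elements -/
noncomputable def dia (a : ℝ) (ha : a ≠ 0) : SL2 :=
  ⟨!![a, 0; 0, a⁻¹], by rw [Matrix.det_fin_two_of, mul_inv_cancel₀ ha]; ring⟩

/-- lower triangular unipotent elements -/
noncomputable def low (s : ℝ) : SL2 := ⟨!![1, 0; s, 1], by simp⟩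

theorem sl_ext {g h : SL2} (h00 : g.1 0 0 = h.1 0 0) (h01 : g.1 0 1 = h.1 0 1)
    (h10 : g.1 1 0 = h.1 1 0) (h11 : g.1 1 1 = h.1 1 1) : g = h := by
  apply Subtype.ext
  ext i j
  fin_cases i <;> fin_cases j
  · exact h00
  · exact h01
  · exact h10
  · exact h11

theorem mul00 (g h : SL2) : (g * h).1 0 0 = g.1 0 0 * h.1 0 0 + g.1 0 1 * h.1 1 0 := by
  show (g.1 * h.1) 0 0 = _
  rw [Matrix.mul_apply, Fin.sum_univ_two]
theorem mul01 (g h : SL2) : (g * h).1 0 1 = g.1 0 0 * h.1 0 1 + g.1 0 1 * h.1 1 1 := by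
  show (g.1 * h.1) 0 1 = _
  rw [Matrix.mul_apply, Fin.sum_univ_two]
theorem mul10 (g h : SL2) : (g * h).1 1 0 = g.1 1 0 * h.1 0 0 + g.1 1 1 * h.1 1 0 := by
  show (g.1 * h.1) 1 0 = _
  rw [Matrix.mul_apply, Fin.sum_univ_two]
theorem mul11 (g h : SL2) : (g * h).1 1 1 = g.1 1 0 * h.1 0 1 + g.1 1 1 * h.1 1 1 := by
  show (g.1 * h.1) 1 1 = _
  rw [Matrix.mul_apply, Fin.sum_univ_two]

theorem hor00 (t : ℝ) : (hor t).1 0 0 = 1 := rfl
theorem hor01 (t : ℝ) : (hor t).1 0 1 = t := rfl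
theorem hor10 (t : ℝ) : (hor t).1 1 0 = 0 := rfl
theorem hor11 (t : ℝ) : (hor t).1 1 1 = 1 := rfl
theorem low00 (t : ℝ) : (low t).1 0 0 = 1 := rfl
theorem low01 (t : ℝ) : (low t).1 0 1 = 0 := rfl
theorem low10 (t : ℝ) : (low t).1 1 0 = t := rfl
theorem low11 (t : ℝ) : (low t).1 1 1 = 1 := rfl
theorem dia00 (a : ℝ) (ha : a ≠ 0) : (dia a ha).1 0 0 = a := rfl
theorem dia01 (a : ℝ) (ha : a ≠ 0) : (dia a ha).1 0 1 = 0 := rfl
theorem dia10 (a : ℝ) (ha : a ≠ 0) : (dia a ha).1 1 0 = 0 := rfl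
theorem dia11 (a : ℝ) (ha : a ≠ 0) : (dia a ha).1 1 1 = a⁻¹ := rfl

theorem det_eq (g : SL2) : g.1 0 0 * g.1 1 1 - g.1 0 1 * g.1 1 0 = 1 := by
  have h := g.2
  rw [Matrix.det_fin_two] at h
  exact h

theorem low_add (s t : ℝ) : low (s + t) = low s * low t := by
  apply sl_ext
  · rw [mul00]; simp [low00, low01, low10]
  · rw [mul01]; simp [low00, low01, low11]
  · rw [mul10]; simp only [low00, low10, low11]; ring
  · rw [mul11]; simp [low01, low10, low11]

theorem low_zero : low 0 = 1 := by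
  apply Subtype.ext
  exact Matrix.one_fin_two.symm

theorem low_neg (s : ℝ) : low (-s) * low s = 1 := by
  rw [← low_add, neg_add_cancel, low_zero]

/-- the factorization of the elements with a positive first entry -/
theorem factor (g : SL2) (h : 0 < g.1 0 0) :
    g = low (g.1 1 0 / g.1 0 0) * (hor (g.1 0 1 * g.1 0 0) * dia (g.1 0 0) h.ne') := by
  have hd := det_eq g
  apply sl_ext
  · simp only [mul00, mul10, low00, low01, hor00, hor01, hor10, dia00, dia10]
    ring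
  · simp only [mul01, mul11, low00, low01, hor00, hor01, hor10, hor11, dia01, dia11]
    field_simp
    ring
  · simp only [mul00, mul10, low10, low11, hor00, hor01, hor10, hor11, dia00, dia10]
    field_simp
    ring
  · simp only [mul01, mul11, low10, low11, hor00, hor01, hor10, hor11, dia01, dia11]
    field_simp
    linarith

theorem low_cont : Continuous low := by
  have h1 : Topology.IsInducing (fun x : SL2 => x.1) := ⟨rfl⟩
  rw [h1.continuous_iff]
  refine continuous_pi fun i => continuous_pi fun j => ?_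
  fin_cases i <;> fin_cases j
  · exact continuous_const
  · exact continuous_const
  · exact continuous_id
  · exact continuous_const

theorem entry_cont (i j : Fin 2) : Continuous (fun g : SL2 => g.1 i j) := by
  have h3 : Continuous (fun g : SL2 => g.1) := continuous_subtype_val
  have h4 : Continuous (fun M : Matrix (Fin 2) (Fin 2) ℝ => M i j) := by fun_prop
  exact h4.comp h3

/-- A closed set which is invariant under the horocycle flow and a group `Γ`. -/
structure HInv (Γ : Subgroup SL2) (Y : Set SL2) : Prop where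
  closed : IsClosed Y
  hor : ∀ t : ℝ, ∀ y ∈ Y, hor t * y ∈ Y
  gam : ∀ γ ∈ Γ, ∀ y ∈ Y, y * γ ∈ Y

theorem dia_low (a : ℝ) (ha : a ≠ 0) (s : ℝ) : dia a ha * low s = low (s / a ^ 2) * dia a ha := by
  apply sl_ext
  · simp only [mul00, low00, low01, low10, dia00, dia01, dia10]; ring
  · simp only [mul01, low00, low01, low11, dia00, dia01, dia11]; ring
  · simp only [mul10, low00, low10, low11, dia00, dia10, dia11]; field_simp; ring
  · simp only [mul11, low01, low10, low11, dia01, dia10, dia11]; ring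

theorem dia_hor (a : ℝ) (ha : a ≠ 0) (s : ℝ) : dia a ha * hor s = hor (s * a ^ 2) * dia a ha := by
  apply sl_ext
  · simp only [mul00, hor00, hor01, hor10, dia00, dia01, dia10]; ring
  · simp only [mul01, hor00, hor01, hor11, dia00, dia01, dia11]; field_simp; ring
  · simp only [mul10, hor00, hor10, hor11, dia00, dia10, dia11]; ring
  · simp only [mul11, hor01, hor10, hor11, dia01, dia10, dia11]; ring

section rec

variable {Γ : Subgroup SL2} {W : Set SL2} (hW : W ∈ 𝓝 (1 : SL2))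
    (hWΓ : ∀ g ∈ W, g ∈ Γ → g = 1) {K : Set SL2} (hK : IsCompact K)
    (hKΓ : ∀ g, ∃ k ∈ K, k⁻¹ * g ∈ Γ)

include hW hWΓ hK hKΓ in
/-- recurrence at an arbitrary point -/
theorem recur_at (x : SL2) (h : SL2) (B : Set SL2) (hB : B ∈ 𝓝 (1 : SL2)) :
    ∃ n : ℕ, 1 ≤ n ∧ ∃ b ∈ B, ∃ b' ∈ B, ∃ γ ∈ Γ, h ^ n * b * x = b' * x * γ := by
  obtain ⟨Γ', hΓ'⟩ : ∃ Γ' : Subgroup SL2, ∀ g, g ∈ Γ' ↔ x⁻¹ * g * x ∈ Γ := by
    refine ⟨{ carrier := {g | x⁻¹ * g * x ∈ Γ}
              mul_mem' := ?_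
              one_mem' := ?_
              inv_mem' := ?_ }, fun g => Iff.rfl⟩
    · intro a b ha hb
      have h1 := Γ.mul_mem ha hb
      have e : x⁻¹ * a * x * (x⁻¹ * b * x) = x⁻¹ * (a * b) * x := by group
      rw [e] at h1
      exact h1
    · show x⁻¹ * 1 * x ∈ Γ
      rw [mul_one, inv_mul_cancel]
      exact Γ.one_mem
    · intro a ha
      have h1 := Γ.inv_mem ha
      have e : (x⁻¹ * a * x)⁻¹ = x⁻¹ * a⁻¹ * x := by group
      rw [e] at h1
      exact h1
  have hc : Continuous (fun g : SL2 => x⁻¹ * g * x) := by fun_prop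
  have h1 : (fun g : SL2 => x⁻¹ * g * x) ⁻¹' W ∈ 𝓝 (1 : SL2) := by
    apply hc.continuousAt.preimage_mem_nhds
    rw [mul_one, inv_mul_cancel]
    exact hW
  obtain ⟨n, hn, b, hb, b', hb', γ, hγ, he⟩ := recur Γ' _ h1 (fun g hg hgΓ => by
      have h2 : x⁻¹ * g * x = 1 := hWΓ _ hg ((hΓ' g).1 hgΓ)
      have e : g = x * (x⁻¹ * g * x) * x⁻¹ := by group
      rw [e, h2, mul_one, mul_inv_cancel])
    ((fun k => k * x⁻¹) '' K) (hK.image (by fun_prop)) (fun g => by
      obtain ⟨k, hk, hkg⟩ := hKΓ (g * x)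
      refine ⟨k * x⁻¹, ⟨k, hk, rfl⟩, (hΓ' _).2 ?_⟩
      have e : x⁻¹ * ((k * x⁻¹)⁻¹ * g) * x = k⁻¹ * (g * x) := by group
      rw [e]
      exact hkg) h B hB
  refine ⟨n, hn, b, hb, b', hb', x⁻¹ * γ * x, (hΓ' γ).1 hγ, ?_⟩
  rw [he]
  group

include hW hWΓ hK hKΓ in
/-- a closed set invariant under the upper triangular group is invariant under the lower triangular
unipotent group -/
theorem low_inv {Y : Set SL2} (hY : HInv Γ Y) (hdia : ∀ a (ha : a ≠ 0), 0 < a → ∀ y ∈ Y,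
    dia a ha * y ∈ Y) (s₀ : ℝ) (y : SL2) (hy : y ∈ Y) : low s₀ * y ∈ Y := by
  by_contra hx
  obtain ⟨x, hxe⟩ : ∃ x, x = low s₀ * y := ⟨_, rfl⟩
  rw [← hxe] at hx
  -- (i)
  have hY' : IsOpen Yᶜ := hY.closed.isOpen_compl
  have h1 : (fun p : ℝ × SL2 => low p.1 * p.2 * x) ⁻¹' Yᶜ ∈ 𝓝 ((0 : ℝ), (1 : SL2)) := by
    have hc : Continuous (fun p : ℝ × SL2 => low p.1 * p.2 * x) :=
      ((low_cont.comp continuous_fst).mul continuous_snd).mul continuous_const
    apply hc.continuousAt.preimage_mem_nhds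
    apply hY'.mem_nhds
    show low 0 * 1 * x ∉ Y
    rw [low_zero, one_mul, one_mul]
    exact hx
  rw [nhds_prod_eq] at h1
  obtain ⟨A, hA, B, hB, hAB⟩ := Filter.mem_prod_iff.1 h1
  obtain ⟨η, hη, hηA⟩ := Metric.mem_nhds_iff.1 hA
  -- (ii)
  have h2 : {b : SL2 | 1 / 2 < (b * low s₀).1 0 0 ∧ |(b * low s₀).1 1 0| < |s₀| + 1} ∈
      𝓝 (1 : SL2) := by
    have c1 : Continuous (fun b : SL2 => (b * low s₀).1 0 0) :=
      (entry_cont 0 0).comp (continuous_id.mul continuous_const)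
    have c2 : Continuous (fun b : SL2 => |(b * low s₀).1 1 0|) :=
      ((entry_cont 1 0).comp (continuous_id.mul continuous_const)).abs
    refine inter_mem ?_ ?_
    · apply c1.continuousAt.eventually (lt_mem_nhds _)
      show 1 / 2 < (1 * low s₀).1 0 0
      rw [one_mul, low00]
      norm_num
    · apply c2.continuousAt.eventually (gt_mem_nhds _)
      show |(1 * low s₀).1 1 0| < |s₀| + 1
      rw [one_mul, low10]
      linarith
  -- the contraction
  obtain ⟨a, ha1, ha2⟩ : ∃ a : ℝ, 1 < a ∧ (|s₀| + 1) * 2 / a ^ 2 < η := by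
    have h3 : Tendsto (fun a : ℝ => (|s₀| + 1) * 2 / a ^ 2) atTop (𝓝 0) :=
      tendsto_const_nhds.div_atTop (tendsto_pow_atTop two_ne_zero)
    obtain ⟨a, h4, h5⟩ := ((h3.eventually (gt_mem_nhds hη)).and (eventually_gt_atTop 1)).exists
    exact ⟨a, h5, h4⟩
  have ha0 : a ≠ 0 := by linarith
  have hpow : ∀ (n : ℕ) (s : ℝ), dia a ha0 ^ n * low s = low (s / (a ^ 2) ^ n) * dia a ha0 ^ n := by
    intro n
    induction n with
    | zero => intro s; simp
    | succ n ih =>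
      intro s
      rw [pow_succ, mul_assoc, dia_low, ← mul_assoc, ih, mul_assoc, div_div, pow_succ (a ^ 2) n,
        mul_comm (a ^ 2)]
  have hpowY : ∀ (n : ℕ), ∀ y ∈ Y, dia a ha0 ^ n * y ∈ Y := by
    intro n
    induction n with
    | zero => intro y hy; rwa [pow_zero, one_mul]
    | succ n ih =>
      intro y hy
      rw [pow_succ, mul_assoc]
      exact ih _ (hdia a ha0 (by linarith) y hy)
  obtain ⟨n, hn, b, hb, b', hb', γ, hγ, he⟩ := recur_at hW hWΓ hK hKΓ x (dia a ha0) _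
    (inter_mem hB h2)
  obtain ⟨hbB, hb1, hb2⟩ := hb
  have hM0 : 0 < (b * low s₀).1 0 0 := by linarith
  obtain ⟨s', hs'⟩ : ∃ s', s' = (b * low s₀).1 1 0 / (b * low s₀).1 0 0 := ⟨_, rfl⟩
  have hs'b : |s'| ≤ (|s₀| + 1) * 2 := by
    rw [hs', abs_div, div_le_iff₀ (abs_pos.2 hM0.ne'), abs_of_pos hM0]
    nlinarith [abs_nonneg s₀]
  have hfac := factor (b * low s₀) hM0
  rw [← hs'] at hfac
  obtain ⟨y', hy', hby⟩ : ∃ y' ∈ Y, b * x = low s' * y' := by
    refine ⟨_, hY.hor ((b * low s₀).1 0 1 * (b * low s₀).1 0 0) _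
      (hdia ((b * low s₀).1 0 0) hM0.ne' hM0 y hy), ?_⟩
    calc b * x = b * low s₀ * y := by rw [hxe, mul_assoc]
      _ = low s' * (hor ((b * low s₀).1 0 1 * (b * low s₀).1 0 0) *
          dia ((b * low s₀).1 0 0) hM0.ne') * y := congrArg (fun g => g * y) hfac
      _ = _ := by simp only [mul_assoc]
  have h3 : b' * x * γ = low (s' / (a ^ 2) ^ n) * (dia a ha0 ^ n * y') := by
    rw [← he, mul_assoc, hby, ← mul_assoc, hpow, mul_assoc]
  have h4 : low (-(s' / (a ^ 2) ^ n)) * b' * x ∈ Y := by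
    have h5 : low (-(s' / (a ^ 2) ^ n)) * b' * x = dia a ha0 ^ n * y' * γ⁻¹ := by
      rw [eq_mul_inv_iff_mul_eq]
      calc low (-(s' / (a ^ 2) ^ n)) * b' * x * γ
          = low (-(s' / (a ^ 2) ^ n)) * (b' * x * γ) := by simp only [mul_assoc]
        _ = _ := by rw [h3, ← mul_assoc, low_neg, one_mul]
    rw [h5]
    exact hY.gam _ (Γ.inv_mem hγ) _ (hpowY n y' hy')
  have h6 : |-(s' / (a ^ 2) ^ n)| < η := by
    rw [abs_neg, abs_div]
    refine lt_of_le_of_lt ?_ ha2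
    have h7 : a ^ 2 ≤ |(a ^ 2) ^ n| := by
      rw [abs_of_pos (by positivity)]
      calc a ^ 2 = (a ^ 2) ^ 1 := (pow_one _).symm
        _ ≤ (a ^ 2) ^ n := pow_le_pow_right₀ (by nlinarith) hn
    exact div_le_div₀ (by positivity) hs'b (by positivity) h7
  have h7 : (-(s' / (a ^ 2) ^ n), b') ∈ A ×ˢ B :=
    mk_mem_prod (hηA (by rwa [mem_ball_zero_iff, Real.norm_eq_abs])) hb'.1
  exact hAB h7 h4

include hW hWΓ hK hKΓ in
/-- closed sets invariant under the upper triangular group -/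
theorem tri_min {Y : Set SL2} (hY : HInv Γ Y) (hdia : ∀ a (ha : a ≠ 0), 0 < a → ∀ y ∈ Y,
    dia a ha * y ∈ Y) (hne : Y.Nonempty) : Y = univ := by
  have hlow := low_inv hW hWΓ hK hKΓ hY hdia
  have hpos : ∀ g : SL2, 0 < g.1 0 0 → ∀ y ∈ Y, g * y ∈ Y := by
    intro g hg y hy
    rw [factor g hg]
    rw [mul_assoc, mul_assoc]
    exact hlow _ _ (hY.hor _ _ (hdia _ _ hg _ hy))
  have hc : ∀ g : SL2, g.1 1 0 ≠ 0 → ∀ y ∈ Y, g * y ∈ Y := by
    intro g hg y hy
    obtain ⟨s, hs⟩ : ∃ s, s = (1 - g.1 0 0) / g.1 1 0 := ⟨_, rfl⟩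
    have h1 : (hor s * g).1 0 0 = 1 := by
      rw [mul00, hor00, hor01, hs, div_mul_cancel₀ _ hg]
      ring
    have h2 := hpos (hor s * g) (by rw [h1]; exact one_pos) y hy
    have h3 := hY.hor (-s) _ h2
    rw [mul_assoc, ← mul_assoc, ← hor_add, neg_add_cancel, hor_zero, one_mul] at h3
    exact h3
  have hall : ∀ g : SL2, ∀ y ∈ Y, g * y ∈ Y := by
    intro g y hy
    by_cases hg : g.1 1 0 = 0
    · have hd := det_eq g
      rw [hg, mul_zero, sub_zero] at hd
      have h00 : g.1 0 0 ≠ 0 := by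
        intro h
        rw [h, zero_mul] at hd
        exact zero_ne_one hd
      have h1 : (low 1 * g).1 1 0 ≠ 0 := by
        rw [mul10, low10, low11, hg]
        simpa using h00
      have h2 := hlow (-1) _ (hc (low 1 * g) h1 y hy)
      rw [mul_assoc, ← mul_assoc, low_neg, one_mul] at h2
      exact h2
    · exact hc g hg y hy
  obtain ⟨y, hy⟩ := hne
  apply eq_univ_of_forall
  intro g
  have h1 := hall (g * y⁻¹) y hy
  rwa [inv_mul_cancel_right] at h1

end rec

end Pool.Agent.KS6_36.LH
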