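import Pool.Agent.KS6_36.LH.Min1

/-!
# Hedlund's theorem: the horocycle flow of `SL(2, ℝ) / Γ` is minimal if `Γ` is cocompact
-/

set_option autoImplicit false
set_option linter.unusedSimpArgs false

open Filter Set Topology

namespace Pool.Agent.KS6_36.LH

open Pool.Agent.TH382.QC Pool.Agent.TH382.HS

theorem hor_cont : Continuous hor := by
  have h1 : Topology.IsInducing (fun x : SL2 => x.1) := ⟨rfl⟩
  rw [h1.continuous_iff]
  refine continuous_pi fun i => continuous_pi fun j => ?_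
  fin_cases i <;> fin_cases j
  · exact continuous_const
  · exact continuous_id
  · exact continuous_const
  · exact continuous_const

theorem diaexp_cont : Continuous (fun u : ℝ => dia (Real.exp u) (Real.exp_ne_zero u)) := by
  have h1 : Topology.IsInducing (fun x : SL2 => x.1) := ⟨rfl⟩
  rw [h1.continuous_iff]
  refine continuous_pi fun i => continuous_pi fun j => ?_
  fin_cases i <;> fin_cases j
  · exact Real.continuous_exp
  · exact continuous_const
  · exact continuous_const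
  · exact Real.continuous_exp.inv₀ (fun x => Real.exp_ne_zero x)

theorem dia_mul (a b : ℝ) (ha : a ≠ 0) (hb : b ≠ 0) :
    dia a ha * dia b hb = dia (a * b) (mul_ne_zero ha hb) := by
  apply sl_ext
  · simp only [mul00, dia00, dia01, dia10]; ring
  · simp only [mul01, dia00, dia01, dia11]; ring
  · simp only [mul10, dia00, dia10, dia11]; ring
  · simp only [mul11, dia01, dia10, dia11]; field_simp; ring

theorem dia_one : dia 1 one_ne_zero = 1 := by
  apply Subtype.ext
  show !![(1 : ℝ), 0; 0, 1⁻¹] = 1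
  rw [inv_one]
  exact Matrix.one_fin_two.symm

theorem dia_inv (a : ℝ) (ha : a ≠ 0) : (dia a ha)⁻¹ = dia a⁻¹ (inv_ne_zero ha) := by
  rw [inv_eq_iff_mul_eq_one, dia_mul]
  have : ∀ x : ℝ, ∀ hx : x ≠ 0, x = 1 → dia x hx = 1 := by
    intro x hx h
    subst h
    exact dia_one
  exact this _ _ (mul_inv_cancel₀ ha)

theorem hor_inv (t : ℝ) : (hor t)⁻¹ = hor (-t) := by
  rw [inv_eq_iff_mul_eq_one, ← hor_add, add_neg_cancel, hor_zero]

/-- the elements which map a point of `Y` into `Y` -/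
def RSet (Y : Set SL2) : Set SL2 := {g | ∃ y ∈ Y, g * y ∈ Y}

section min

variable {Γ : Subgroup SL2} {W : Set SL2} (hW : W ∈ 𝓝 (1 : SL2))
    (hWΓ : ∀ g ∈ W, g ∈ Γ → g = 1) {K : Set SL2} (hK : IsCompact K)
    (hKΓ : ∀ g, ∃ k ∈ K, k⁻¹ * g ∈ Γ)

include hKΓ in
theorem to_K {Y : Set SL2} (hY : HInv Γ Y) (y : SL2) (hy : y ∈ Y) :
    ∃ k ∈ K, ∃ γ ∈ Γ, k ∈ Y ∧ y = k * γ := by
  obtain ⟨k, hk, hγ⟩ := hKΓ y
  refine ⟨k, hk, k⁻¹ * y, hγ, ?_, by group⟩
  have h1 := hY.gam _ (Γ.inv_mem hγ) _ hy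
  have e : y * (k⁻¹ * y)⁻¹ = k := by group
  rwa [e] at h1

include hK hKΓ in
theorem rset_closed {Y : Set SL2} (hY : HInv Γ Y) : IsClosed (RSet Y) := by
  rw [← isOpen_compl_iff, isOpen_iff_mem_nhds]
  intro g hg
  have h1 : ∀ᶠ g' in 𝓝 g, ∀ y ∈ K, ¬ (y ∈ Y ∧ g' * y ∈ Y) := by
    apply hK.eventually_forall_of_forall_eventually (P := fun g' y => ¬ (y ∈ Y ∧ g' * y ∈ Y))
    intro y hy
    have hc : IsClosed {z : SL2 × SL2 | z.2 ∈ Y ∧ z.1 * z.2 ∈ Y} :=
      (hY.closed.preimage continuous_snd).inter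
        (hY.closed.preimage (continuous_fst.mul continuous_snd))
    apply hc.isOpen_compl.mem_nhds
    intro h2
    exact hg ⟨y, h2.1, h2.2⟩
  filter_upwards [h1] with g' hg'
  rintro ⟨y, hy, hgy⟩
  obtain ⟨k, hk, γ, hγ, hkY, he⟩ := to_K hKΓ hY y hy
  refine hg' k hk ⟨hkY, ?_⟩
  have h2 := hY.gam _ (Γ.inv_mem hγ) _ hgy
  rw [he] at h2
  have e : g' * (k * γ) * γ⁻¹ = g' * k := by group
  rwa [e] at h2

theorem rset_hor {Y : Set SL2} (hY : HInv Γ Y) (s t : ℝ) (g : SL2) (hg : g ∈ RSet Y) :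
    hor s * g * hor t ∈ RSet Y := by
  obtain ⟨y, hy, hgy⟩ := hg
  refine ⟨hor (-t) * y, hY.hor _ _ hy, ?_⟩
  have e : hor s * g * hor t * (hor (-t) * y) = hor s * (g * y) := by
    rw [← hor_inv]
    group
  rw [e]
  exact hY.hor _ _ hgy

theorem rset_inv {Y : Set SL2} (g : SL2) (hg : g ∈ RSet Y) : g⁻¹ ∈ RSet Y := by
  obtain ⟨y, hy, hgy⟩ := hg
  exact ⟨g * y, hgy, by rwa [inv_mul_cancel_left]⟩

/-- the minimal sets -/
theorem rset_dia {Y : Set SL2} (hY : HInv Γ Y)
    (hmin : ∀ Y' : Set SL2, HInv Γ Y' → Y'.Nonempty → Y' ⊆ Y → Y' = Y)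
    (a : ℝ) (ha : a ≠ 0) (h : dia a ha ∈ RSet Y) (y : SL2) (hy : y ∈ Y) :
    dia a⁻¹ (inv_ne_zero ha) * y ∈ Y := by
  have h1 : ({y | y ∈ Y ∧ dia a⁻¹ (inv_ne_zero ha) * y ∈ Y} : Set SL2) = Y := by
    apply hmin
    · refine ⟨?_, ?_, ?_⟩
      · exact hY.closed.inter (hY.closed.preimage (continuous_const.mul continuous_id))
      · rintro t y ⟨h2, h3⟩
        refine ⟨hY.hor _ _ h2, ?_⟩
        rw [← mul_assoc, dia_hor, mul_assoc]
        exact hY.hor _ _ h3
      · rintro γ hγ y ⟨h2, h3⟩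
        refine ⟨hY.gam _ hγ _ h2, ?_⟩
        rw [← mul_assoc]
        exact hY.gam _ hγ _ h3
    · obtain ⟨z, hz, hz2⟩ := h
      refine ⟨dia a ha * z, hz2, ?_⟩
      rw [← dia_inv a ha, inv_mul_cancel_left]
      exact hz
    · exact fun y hy => hy.1
  rw [← h1] at hy
  exact hy.2

include hW hWΓ hK hKΓ in
theorem no_unip (y : SL2) (t : ℝ) (h : y⁻¹ * hor t * y ∈ Γ) : t = 0 := by
  have h1 : ∀ᶠ s in 𝓝 (0 : ℝ), ∀ k ∈ K, k⁻¹ * hor s * k ∈ W := by
    apply hK.eventually_forall_of_forall_eventually (P := fun s k => k⁻¹ * hor s * k ∈ W)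
    intro k hk
    have hc : Continuous (fun z : ℝ × SL2 => z.2⁻¹ * hor z.1 * z.2) :=
      (continuous_snd.inv.mul (hor_cont.comp continuous_fst)).mul continuous_snd
    apply hc.continuousAt.preimage_mem_nhds
    show W ∈ 𝓝 (k⁻¹ * hor 0 * k)
    rw [hor_zero, mul_one, inv_mul_cancel]
    exact hW
  have h2 : Tendsto (fun u : ℝ => t * u ^ 2) (𝓝[>] 0) (𝓝 0) := by
    have : Continuous (fun u : ℝ => t * u ^ 2) := by fun_prop
    have h3 := this.tendsto 0
    simp only [ne_eq, OfNat.ofNat_ne_zero, not_false_eq_true, zero_pow, mul_zero] at h3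
    exact h3.mono_left nhdsWithin_le_nhds
  obtain ⟨a, h3, h4⟩ := ((h2.eventually h1).and self_mem_nhdsWithin).exists
  have ha : a ≠ 0 := ne_of_gt h4
  obtain ⟨k, hk, hkγ⟩ := hKΓ (dia a ha * y)
  have h5 := Γ.mul_mem (Γ.mul_mem hkγ h) (Γ.inv_mem hkγ)
  have e : k⁻¹ * (dia a ha * y) * (y⁻¹ * hor t * y) * (k⁻¹ * (dia a ha * y))⁻¹ =
      k⁻¹ * hor (t * a ^ 2) * k := by
    have e1 : dia a ha * hor t * (dia a ha)⁻¹ = hor (t * a ^ 2) := by
      rw [dia_hor, mul_inv_cancel_right]
    rw [← e1]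
    group
  rw [e] at h5
  have h6 := hWΓ _ (h3 k hk) h5
  have h7 : hor (t * a ^ 2) = 1 := by
    have e2 : hor (t * a ^ 2) = k * (k⁻¹ * hor (t * a ^ 2) * k) * k⁻¹ := by group
    rw [e2, h6, mul_one, mul_inv_cancel]
  have h8 : (hor (t * a ^ 2)).1 0 1 = (1 : SL2).1 0 1 := by rw [h7]
  rw [hor01, ← hor_zero, hor01] at h8
  rcases mul_eq_zero.1 h8 with h9 | h9
  · exact h9
  · exact absurd (pow_eq_zero_iff (two_ne_zero) |>.1 h9) ha

include hW hWΓ hK hKΓ in
theorem rset_freq {Y : Set SL2} (hY : HInv Γ Y) (hne : Y.Nonempty) :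
    ∃ᶠ g in 𝓝 (1 : SL2), g ∈ RSet Y ∧ ¬ (g.1 1 0 = 0 ∧ g.1 0 0 = 1) := by
  obtain ⟨y₀, hy₀⟩ := hne
  have : SecondCountableTopology (Matrix (Fin 2) (Fin 2) ℝ) :=
    inferInstanceAs (SecondCountableTopology (Fin 2 → Fin 2 → ℝ))
  have : SecondCountableTopology SL2 :=
    (⟨rfl⟩ : Topology.IsInducing (fun x : SL2 => x.1)).secondCountableTopology
  have h1 : ∀ n : ℕ, ∃ k ∈ K, ∃ γ ∈ Γ, k ∈ Y ∧ hor n * y₀ = k * γ := fun n =>
    to_K hKΓ hY _ (hY.hor _ _ hy₀)
  choose k hk γ hγ hkY he using h1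
  obtain ⟨k₀, hk₀, φ, hφ, hlim⟩ := hK.tendsto_subseq hk
  have h2 : Tendsto (fun n => k (φ (n + 1)) * (k (φ n))⁻¹) atTop (𝓝 1) := by
    have h3 : Tendsto (fun n => k (φ (n + 1)) * (k (φ n))⁻¹) atTop (𝓝 (k₀ * k₀⁻¹)) :=
      ((tendsto_add_atTop_iff_nat (f := fun n => k (φ n)) 1).2 hlim).mul hlim.inv
    rwa [mul_inv_cancel] at h3
  have h4 : Tendsto (fun n => (k (φ (n + 1)) * (k (φ n))⁻¹).1 0 1) atTop (𝓝 0) := by
    have h5 := ((entry_cont 0 1).tendsto 1).comp h2
    have h6 : (1 : SL2).1 0 1 = 0 := by rw [← hor_zero, hor01]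
    rw [h6] at h5
    exact h5
  apply h2.frequently
  apply Eventually.frequently
  filter_upwards [h4.eventually (gt_mem_nhds one_pos)] with n hn
  refine ⟨⟨k (φ n), hkY _, by rw [inv_mul_cancel_right]; exact hkY _⟩, ?_⟩
  rintro ⟨h5, h6⟩
  have h7 : k (φ (n + 1)) * (k (φ n))⁻¹ = hor ((k (φ (n + 1)) * (k (φ n))⁻¹).1 0 1) := by
    have hd := det_eq (k (φ (n + 1)) * (k (φ n))⁻¹)
    apply sl_ext
    · rw [hor00]; exact h6
    · rw [hor01]
    · rw [hor10]; exact h5
    · rw [hor11]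
      rw [h5, h6] at hd
      linarith
  obtain ⟨s, hs⟩ : ∃ s, s = (k (φ (n + 1)) * (k (φ n))⁻¹).1 0 1 := ⟨_, rfl⟩
  rw [← hs] at h7 hn
  have h8 : y₀⁻¹ * hor (φ (n + 1) - (s + φ n)) * y₀ ∈ Γ := by
    have e1 : hor (φ (n + 1)) * y₀ = k (φ (n + 1)) * γ (φ (n + 1)) := he _
    have e2 : hor (φ n) * y₀ = k (φ n) * γ (φ n) := he _
    have e3 : k (φ (n + 1)) = hor s * k (φ n) := by rw [← h7, inv_mul_cancel_right]
    have e4 : hor (φ (n + 1) - (s + φ n)) = (hor (s + φ n))⁻¹ * hor (φ (n + 1)) := by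
      rw [hor_inv, ← hor_add]
      congr 1
      ring
    have e5 : hor (φ (n + 1)) * y₀ = hor (s + φ n) * y₀ * ((γ (φ n))⁻¹ * γ (φ (n + 1))) := by
      rw [e1, e3, hor_add, mul_assoc (hor s) (hor _), e2]
      group
    have e6 : y₀⁻¹ * hor (φ (n + 1) - (s + φ n)) * y₀ = (γ (φ n))⁻¹ * γ (φ (n + 1)) := by
      rw [e4]
      calc y₀⁻¹ * ((hor (s + φ n))⁻¹ * hor (φ (n + 1))) * y₀
          = (hor (s + φ n) * y₀)⁻¹ * (hor (φ (n + 1)) * y₀) := by group
        _ = _ := by rw [e5]; group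
    rw [e6]
    exact Γ.mul_mem (Γ.inv_mem (hγ _)) (hγ _)
  have h9 := no_unip hW hWΓ hK hKΓ _ _ h8
  have h10 : ((φ n : ℕ) : ℝ) + 1 ≤ φ (n + 1) := by exact_mod_cast hφ (Nat.lt_succ_self n)
  linarith

include hW hWΓ hK hKΓ in
/-- minimal sets are everything -/
theorem min_univ {Y : Set SL2} (hY : HInv Γ Y) (hne : Y.Nonempty)
    (hmin : ∀ Y' : Set SL2, HInv Γ Y' → Y'.Nonempty → Y' ⊆ Y → Y' = Y) : Y = univ := by
  have hcl := rset_closed hK hKΓ hY
  have hfreq := rset_freq hW hWΓ hK hKΓ hY hne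
  suffices h : ∀ a (ha : a ≠ 0), 0 < a → dia a ha ∈ RSet Y by
    apply tri_min hW hWΓ hK hKΓ hY _ hne
    intro a ha ha0 y hy
    have h1 := rset_dia hY hmin a⁻¹ (inv_ne_zero ha) (h _ _ (inv_pos.2 ha0)) y hy
    simpa only [inv_inv] using h1
  have hsplit : (∃ᶠ g in 𝓝 (1 : SL2), g ∈ RSet Y ∧ g.1 1 0 ≠ 0) ∨
      (∃ᶠ g in 𝓝 (1 : SL2), g ∈ RSet Y ∧ g.1 1 0 = 0 ∧ g.1 0 0 ≠ 1) := by
    rw [← frequently_or_distrib]
    refine hfreq.mono fun g hg => ?_
    by_cases h1 : g.1 1 0 = 0
    · exact Or.inr ⟨hg.1, h1, fun h2 => hg.2 ⟨h1, h2⟩⟩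
    · exact Or.inl ⟨hg.1, h1⟩
  rcases hsplit with hA | hB
  · intro a ha _
    have h1 : ∀ g ∈ RSet Y, g.1 1 0 ≠ 0 → dia a ha * low (a * g.1 1 0) ∈ RSet Y := by
      intro g hg hc
      have h2 := rset_hor hY ((a - g.1 0 0) / g.1 1 0) (-((g.1 1 1 - a⁻¹) / g.1 1 0)) g hg
      have hd := det_eq g
      have e : hor ((a - g.1 0 0) / g.1 1 0) * g * hor (-((g.1 1 1 - a⁻¹) / g.1 1 0)) =
          dia a ha * low (a * g.1 1 0) := by
        apply sl_ext
        · simp only [mul00, mul01, mul10, mul11, low00, low10, hor00, hor01, hor10, hor11, dia00,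
            dia01]
          field_simp
          ring
        · simp only [mul00, mul01, mul10, mul11, low01, low11, hor00, hor01, hor10, hor11, dia00,
            dia01]
          field_simp
          linear_combination (-a) * hd
        · simp only [mul00, mul01, mul10, mul11, low00, low10, hor00, hor01, hor10, hor11, dia10,
            dia11]
          field_simp
          ring
        · simp only [mul00, mul01, mul10, mul11, low01, low11, hor00, hor01, hor10, hor11, dia10,
            dia11]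
          field_simp
          ring
      rwa [e] at h2
    have h2 : Continuous (fun g : SL2 => dia a ha * low (a * g.1 1 0)) :=
      continuous_const.mul (low_cont.comp (continuous_const.mul (entry_cont 1 0)))
    have h3 := hcl.mem_of_frequently_of_tendsto (hA.mono fun g hg => h1 g hg.1 hg.2)
      (h2.tendsto 1)
    have h4 : (1 : SL2).1 1 0 = 0 := by rw [← hor_zero, hor10]
    rw [h4, mul_zero, low_zero, mul_one] at h3
    exact h3
  · -- the subgroup of the `u` with `dia (exp u) Y = Y`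
    let S : AddSubgroup ℝ :=
      { carrier := {u | ∀ y ∈ Y, dia (Real.exp u) (Real.exp_ne_zero u) * y ∈ Y ∧
          dia (Real.exp (-u)) (Real.exp_ne_zero (-u)) * y ∈ Y}
        add_mem' := by
          intro u v hu hv y hy
          have e : ∀ u v : ℝ, dia (Real.exp (u + v)) (Real.exp_ne_zero (u + v)) =
              dia (Real.exp u) (Real.exp_ne_zero u) * dia (Real.exp v) (Real.exp_ne_zero v) := by
            intro u v
            rw [dia_mul]
            apply sl_ext <;> simp only [dia00, dia01, dia10, dia11, Real.exp_add]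
          refine ⟨?_, ?_⟩
          · rw [e, mul_assoc]
            exact (hu _ (hv _ hy).1).1
          · rw [neg_add, e, mul_assoc]
            exact (hu _ (hv _ hy).2).2
        zero_mem' := by
          intro y hy
          have e : dia (Real.exp 0) (Real.exp_ne_zero 0) = 1 := by
            rw [← dia_one]
            apply sl_ext <;> simp only [dia00, dia01, dia10, dia11, Real.exp_zero]
          have e' : dia (Real.exp (-0)) (Real.exp_ne_zero (-0)) = 1 := by
            rw [← dia_one]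
            apply sl_ext <;> simp only [dia00, dia01, dia10, dia11, neg_zero, Real.exp_zero]
          rw [e, e', one_mul]
          exact ⟨hy, hy⟩
        neg_mem' := by
          intro u hu y hy
          refine ⟨(hu y hy).2, ?_⟩
          have h := (hu y hy).1
          have e : dia (Real.exp (- -u)) (Real.exp_ne_zero (- -u)) =
              dia (Real.exp u) (Real.exp_ne_zero u) := by
            apply sl_ext <;> simp only [dia00, dia01, dia10, dia11, neg_neg]
          rw [e]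
          exact h }
    have hScl : IsClosed (S : Set ℝ) := by
      have e : (S : Set ℝ) = ⋂ y ∈ Y, ({u | dia (Real.exp u) (Real.exp_ne_zero u) * y ∈ Y} ∩
          {u | dia (Real.exp (-u)) (Real.exp_ne_zero (-u)) * y ∈ Y}) := by
        ext u
        simp only [mem_iInter]
        exact Iff.rfl
      rw [e]
      refine isClosed_biInter fun y _ => ?_
      refine (hY.closed.preimage (diaexp_cont.mul continuous_const)).inter ?_
      exact hY.closed.preimage ((diaexp_cont.comp continuous_neg).mul continuous_const)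
    have hmem : ∀ a (ha : a ≠ 0), 0 < a → dia a ha ∈ RSet Y → Real.log a ∈ S := by
      intro a ha ha0 h y hy
      have h1 := rset_dia hY hmin a ha h y hy
      have h2 := rset_inv _ h
      rw [dia_inv] at h2
      have h3 := rset_dia hY hmin a⁻¹ (inv_ne_zero ha) h2 y hy
      have e1 : dia (Real.exp (Real.log a)) (Real.exp_ne_zero (Real.log a)) =
          dia a⁻¹⁻¹ (inv_ne_zero (inv_ne_zero ha)) := by
        apply sl_ext <;> simp only [dia00, dia01, dia10, dia11, inv_inv, Real.exp_log ha0]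
      have e2 : dia (Real.exp (-Real.log a)) (Real.exp_ne_zero (-Real.log a)) =
          dia a⁻¹ (inv_ne_zero ha) := by
        apply sl_ext <;> simp only [dia00, dia01, dia10, dia11, inv_inv, Real.exp_neg,
          Real.exp_log ha0]
      rw [e1, e2]
      exact ⟨h3, h1⟩
    have hdense : Dense (S : Set ℝ) := by
      apply AddSubgroup.dense_of_not_isolated_zero
      intro ε hε
      have h1 : Tendsto (fun g : SL2 => Real.log (g.1 0 0)) (𝓝 1) (𝓝 0) := by
        have h2 : (1 : SL2).1 0 0 = 1 := by rw [← hor_zero, hor00]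
        have h3 : Tendsto (fun g : SL2 => Real.log (g.1 0 0)) (𝓝 1) (𝓝 (Real.log ((1 : SL2).1 0 0))) :=
          ((entry_cont 0 0).continuousAt).log (by rw [h2]; exact one_ne_zero)
        rwa [h2, Real.log_one] at h3
      have h2 : ∀ᶠ g : SL2 in 𝓝 1, 0 < g.1 0 0 := by
        apply (entry_cont 0 0).continuousAt.eventually (lt_mem_nhds _)
        show 0 < (1 : SL2).1 0 0
        rw [← hor_zero, hor00]
        exact one_pos
      have h3 : ∀ᶠ g : SL2 in 𝓝 1, |Real.log (g.1 0 0)| < ε := by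
        have h4 := h1.abs
        rw [abs_zero] at h4
        exact h4.eventually (gt_mem_nhds hε)
      obtain ⟨g, ⟨⟨hgR, hg0, hg1⟩, hgpos⟩, hgε⟩ := ((hB.and_eventually h2).and_eventually h3).exists
      have h4 : dia (g.1 0 0) hgpos.ne' ∈ RSet Y := by
        have h5 := rset_hor hY (-(g.1 0 0 * g.1 0 1)) 0 g hgR
        have e : hor (-(g.1 0 0 * g.1 0 1)) * g * hor 0 = dia (g.1 0 0) hgpos.ne' := by
          have hd := det_eq g
          rw [hg0, mul_zero, sub_zero] at hd
          rw [hor_zero, mul_one]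
          apply sl_ext
          · simp only [mul00, hor00, hor01, dia00, hg0]
            ring
          · simp only [mul01, hor00, hor01, dia01]
            linear_combination (-g.1 0 1) * hd
          · simp only [mul10, hor10, hor11, dia10, hg0]
            ring
          · simp only [mul11, hor10, hor11, dia11]
            field_simp
            linarith
        rwa [e] at h5
      have h5 := hmem _ _ hgpos h4
      have h6 : Real.log (g.1 0 0) ≠ 0 := by
        intro h
        rcases Real.log_eq_zero.1 h with h | h | h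
        · exact hgpos.ne' h
        · exact hg1 h
        · rw [h] at hgpos
          linarith
      rcases lt_or_gt_of_ne h6 with h7 | h7
      · refine ⟨-Real.log (g.1 0 0), S.neg_mem h5, by linarith, ?_⟩
        rwa [abs_of_neg h7] at hgε
      · refine ⟨Real.log (g.1 0 0), h5, h7, ?_⟩
        rwa [abs_of_pos h7] at hgε
    have hall : ∀ u : ℝ, u ∈ S := by
      intro u
      have h1 : (S : Set ℝ) = univ := by rw [← hScl.closure_eq, hdense.closure_eq]
      have h2 : u ∈ (S : Set ℝ) := by rw [h1]; trivial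
      exact h2
    intro a ha ha0
    obtain ⟨y, hy⟩ := hne
    have h1 := (hall (Real.log a) y hy).1
    have e1 : dia (Real.exp (Real.log a)) (Real.exp_ne_zero (Real.log a)) = dia a ha := by
      apply sl_ext <;> simp only [dia00, dia01, dia10, dia11, Real.exp_log ha0]
    rw [e1] at h1
    exact ⟨y, hy, h1⟩

include hW hWΓ hK hKΓ in
/-- **Hedlund's theorem** -/
theorem hedlund {Y : Set SL2} (hY : HInv Γ Y) (hne : Y.Nonempty) : Y = univ := by
  have : T2Space SL2 := (⟨⟨rfl⟩, Subtype.val_injective⟩ :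
      Topology.IsEmbedding (fun x : SL2 => x.1)).t2Space
  obtain ⟨M, hMY, hM⟩ := zorn_superset_nonempty {Y | HInv Γ Y ∧ Y.Nonempty} (by
    intro c hc hchain hcne
    refine ⟨⋂₀ c, ⟨⟨?_, ?_, ?_⟩, ?_⟩, fun s hs => sInter_subset_of_mem hs⟩
    · exact isClosed_sInter fun s hs => (hc hs).1.closed
    · intro t y hy s hs
      exact (hc hs).1.hor _ _ (hy s hs)
    · intro γ hγ y hy s hs
      exact (hc hs).1.gam _ hγ _ (hy s hs)
    · have : Nonempty c := hcne.to_subtype
      have h1 : (⋂ i : c, (i : Set SL2) ∩ K).Nonempty := by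
        apply IsCompact.nonempty_iInter_of_directed_nonempty_isCompact_isClosed
        · intro i j
          rcases hchain.total i.2 j.2 with h2 | h2
          · exact ⟨i, subset_rfl, inter_subset_inter_left _ h2⟩
          · exact ⟨j, inter_subset_inter_left _ h2, subset_rfl⟩
        · intro i
          obtain ⟨y, hy⟩ := (hc i.2).2
          obtain ⟨k, hk, γ, hγ, hkY, -⟩ := to_K hKΓ (hc i.2).1 y hy
          exact ⟨k, hkY, hk⟩
        · intro i
          exact hK.inter_left (hc i.2).1.closed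
        · intro i
          exact (hc i.2).1.closed.inter hK.isClosed
      obtain ⟨x, hx⟩ := h1
      refine ⟨x, fun s hs => ?_⟩
      exact (mem_iInter.1 hx ⟨s, hs⟩).1) Y ⟨hY, hne⟩
  have h1 : M = univ := by
    apply min_univ hW hWΓ hK hKΓ hM.1.1 hM.1.2
    intro Y' h1 h2 h3
    exact subset_antisymm h3 (hM.2 ⟨h1, h2⟩ h3)
  rw [h1] at hMY
  exact eq_univ_of_univ_subset hMY

end min

end Pool.Agent.KS6_36.LH
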